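import Pool.Agent.Z6.Defs

/-!
MP_dadc3d_co, Z6. Moving two vertices past a vertex `g` between them.

`u` is moved to a point `x` just right of `g`, `d` to a point `y` just left of `g` (`exists_right`,
`exists_left`): `p' = Function.update (Function.update p u x) d y` (use `classical`; `u ≠ d`, because
`p u < p g < p d`). Injective. Let `Q = (S u).filter (p v < p g)`, `R = (P d).filter (p g < p v)`. By
`h0` the degrees of `u` and `d` are at most 5, so `(S u).card ≤ 5`, `Q.card ≤ 1`,
`(P u).card + (S u).card ≤ 5`; the same for `d` and `R`. `u` is not in `R`, `d` is not in `Q`, `Q` and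
`R` are disjoint. Let `e = 1` if `u`, `d` are adjacent, otherwise `e = 0`. Then
* `w ∈ Q`: `S' w = insert u (S w)`, `P' w = (P w).erase u`, so `phi' w ≤ phi w + 3`;
* `w ∈ R`: `P' w = insert d (P w)`, `S' w = (S w).erase d`, so `phi' w ≤ phi w + 3`;
* `g`: `S' g = insert u ((S g).erase d)`, `P' g = insert d ((P g).erase u)`, the same cards, so
  `phi' g = phi g`;
* all other `w` different from `u`, `d`: no change;
* `(S' u).card = (S u).card - Q.card - 1 - e`, `(P' u).card = (P u).card + Q.card + 1 + e`; as
  `(P u).card ≤ 5 - (S u).card`, `Q.card + 4 ≤ (S u).card` this is at most `3`, so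
  `phi' u + 2 * (Q.card + 1) ≤ phi u`;
* in the same way `phi' d + 2 * (R.card + 1) ≤ phi d`.
Sum: `Phi' + 2 * (Q.card + 1) + 2 * (R.card + 1) ≤ Phi + 3 * Q.card + 3 * R.card`, with `Q.card ≤ 1`,
`R.card ≤ 1`.
-/

set_option autoImplicit false

namespace Pool.Agent.Z6

open Finset

variable {V : Type} [Fintype V] (G : SimpleGraph V) [DecidableRel G.Adj] (p : V → ℚ)

/-- the positions after the move -/
private structure Mv (p p' : V → ℚ) (u d g : V) : Prop where
  inj : Function.Injective p
  o : ∀ v, v ≠ u → v ≠ d → p' v = p v
  ug : p u < p g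
  gd : p g < p d
  x1 : p g < p' u
  x2 : ∀ v, p g < p v → p' u < p v
  y1 : p' d < p g
  y2 : ∀ v, p v < p g → p v < p' d

omit [Fintype V] in
private theorem Mv.neg {p p' : V → ℚ} {u d g : V} (h : Mv p p' u d g) :
    Mv (fun v => - p v) (fun v => - p' v) d u g where
  inj := fun a b hab => h.inj (neg_injective hab)
  o := fun v h1 h2 => by
    show - p' v = - p v
    rw [h.o v h2 h1]
  ug := by
    have := h.gd
    show - p d < - p g
    linarith
  gd := by
    have := h.ug
    show - p g < - p u
    linarith
  x1 := by
    have := h.y1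
    show - p g < - p' d
    linarith
  x2 := fun v hv => by
    have := h.y2 v (by linarith)
    show - p' d < - p v
    linarith
  y1 := by
    have := h.x1
    show - p' u < - p g
    linarith
  y2 := fun v hv => by
    have := h.x2 v (by linarith)
    show - p v < - p' u
    linarith

variable {G} in
private theorem sub_S [DecidableEq V] {p p' : V → ℚ} {u d g : V} (h : Mv p p' u d g) {w : V}
    (hwu : w ≠ u) (hwd : w ≠ d) : S G p' w ⊆ insert u (S G p w) := by
  intro v hv
  rw [mem_S, h.o w hwu hwd] at hv
  rw [mem_insert, mem_S]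
  by_cases hvu : v = u
  · exact Or.inl hvu
  · refine Or.inr ⟨hv.1, ?_⟩
    by_cases hvd : v = d
    · subst hvd
      exact hv.2.trans (h.y1.trans h.gd)
    · rw [← h.o v hvu hvd]
      exact hv.2

variable {G} in
private theorem card_S_g {p p' : V → ℚ} {u d g : V} (h : Mv p p' u d g) (hgd : G.Adj g d) :
    (S G p' g).card ≤ (S G p g).card := by
  classical
  have hgu : g ≠ u := fun e => lt_irrefl _ (e ▸ h.ug)
  have hgd' : g ≠ d := fun e => lt_irrefl _ (e ▸ h.gd)
  have h1 : S G p' g ⊆ insert u ((S G p g).erase d) := by
    intro v hv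
    rw [mem_S, h.o g hgu hgd'] at hv
    rw [mem_insert, mem_erase, mem_S]
    by_cases hvu : v = u
    · exact Or.inl hvu
    · have hvd : v ≠ d := by
        rintro rfl
        exact lt_asymm hv.2 h.y1
      refine Or.inr ⟨hvd, hv.1, ?_⟩
      rw [← h.o v hvu hvd]
      exact hv.2
  have h2 : d ∈ S G p g := (mem_S G p g d).2 ⟨hgd, h.gd⟩
  have h3 : 0 < (S G p g).card := card_pos.2 ⟨d, h2⟩
  calc (S G p' g).card ≤ (insert u ((S G p g).erase d)).card := card_le_card h1
    _ ≤ ((S G p g).erase d).card + 1 := card_insert_le _ _
    _ = (S G p g).card := by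
      rw [card_erase_of_mem h2]
      omega

variable {G} in
private theorem sub_S_o {p p' : V → ℚ} {u d g : V} (h : Mv p p' u d g) {w : V}
    (hwu : w ≠ u) (hwd : w ≠ d) (hwg : w ≠ g) (hw : ¬ (G.Adj u w ∧ p u < p w ∧ p w < p g)) :
    S G p' w ⊆ S G p w := by
  intro v hv
  rw [mem_S, h.o w hwu hwd] at hv
  rw [mem_S]
  refine ⟨hv.1, ?_⟩
  by_cases hvu : v = u
  · subst hvu
    have h1 : p w ≤ p g := by
      by_contra hcon
      exact lt_asymm hv.2 (h.x2 w (not_le.1 hcon))
    have h2 : p w < p g := lt_of_le_of_ne h1 fun e => hwg (h.inj e)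
    by_contra hcon
    have h3 : p v < p w := lt_of_le_of_ne (not_lt.1 hcon) fun e => hwu (h.inj e).symm
    exact hw ⟨hv.1.symm, h3, h2⟩
  · by_cases hvd : v = d
    · subst hvd
      exact hv.2.trans (h.y1.trans h.gd)
    · rw [← h.o v hvu hvd]
      exact hv.2

variable {G} in
private theorem phi_u {p p' : V → ℚ} {u d g : V} (h : Mv p p' u d g) (h6 : G.degree u ≠ 6)
    (h5 : G.degree u ≤ 5) (hu : Mr G p u g) :
    phi G p' u + 2 * (((S G p u).filter fun v => p v < p g).card + 1) ≤ phi G p u := by
  classical
  obtain ⟨hgS, hcard⟩ := hu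
  set Q := (S G p u).filter fun v => p v < p g with hQ
  have hgQ : g ∉ Q := by
    rw [hQ, mem_filter]
    exact fun h1 => lt_irrefl _ h1.2
  have hsub : insert g Q ⊆ S G p u := by
    intro v hv
    rcases mem_insert.1 hv with rfl | hv
    · exact hgS
    · exact (mem_filter.1 hv).1
  have hS1 : S G p' u ⊆ S G p u \ insert g Q := by
    intro v hv
    rw [mem_S] at hv
    have hvu : v ≠ u := by
      rintro rfl
      exact lt_irrefl _ hv.2
    have hvd : v ≠ d := by
      rintro rfl
      exact lt_asymm (h.y1.trans h.x1) hv.2
    have hv2 := hv.2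
    rw [h.o v hvu hvd] at hv2
    have hgv : p g < p v := h.x1.trans hv2
    rw [mem_sdiff, mem_S, mem_insert, hQ, mem_filter]
    refine ⟨⟨hv.1, h.ug.trans hgv⟩, ?_⟩
    rintro (rfl | h1)
    · exact lt_irrefl _ hgv
    · exact lt_asymm hgv h1.2
  have hS2 : (S G p' u).card + (Q.card + 1) ≤ (S G p u).card := by
    have h1 := card_le_card hS1
    have h2 := card_sdiff_add_card_eq_card hsub
    rw [card_insert_of_notMem hgQ] at h2
    omega
  have hP1 : P G p' u ⊆ insert d (P G p u ∪ insert g Q) := by
    intro v hv
    rw [mem_P] at hv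
    have hvu : v ≠ u := by
      rintro rfl
      exact lt_irrefl _ hv.2
    rw [mem_insert, mem_union, mem_insert, mem_P, hQ, mem_filter, mem_S]
    by_cases hvd : v = d
    · exact Or.inl hvd
    · refine Or.inr ?_
      have hv2 := hv.2
      rw [h.o v hvu hvd] at hv2
      have h1 : p v ≤ p g := by
        by_contra hcon
        exact lt_asymm hv2 (h.x2 v (not_le.1 hcon))
      rcases h1.lt_or_eq with h2 | h2
      · rcases lt_trichotomy (p v) (p u) with h3 | h3 | h3
        · exact Or.inl ⟨hv.1, h3⟩
        · exact absurd (h.inj h3) hvu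
        · exact Or.inr (Or.inr ⟨⟨hv.1, h3⟩, h2⟩)
      · exact Or.inr (Or.inl (h.inj h2))
  have hP2 : (P G p' u).card ≤ (P G p u).card + Q.card + 2 := by
    have h1 := card_le_card hP1
    have h2 := card_insert_le d (P G p u ∪ insert g Q)
    have h3 := card_union_le (P G p u) (insert g Q)
    rw [card_insert_of_notMem hgQ] at h3
    omega
  have h7 := card_add_le G p u
  have h8 : max (S G p' u).card (P G p' u).card - 3 + (Q.card + 1) ≤
      max (S G p u).card (P G p u).card - 3 := by
    omega
  unfold phi
  rw [if_neg h6]
  omega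

private theorem phi_add3 {p p' : V → ℚ} {w : V} (h1 : (S G p' w).card ≤ (S G p w).card + 1)
    (h2 : (P G p' w).card ≤ (P G p w).card + 1) : phi G p' w ≤ phi G p w + 3 := by
  unfold phi
  have h3 : max (S G p' w).card (P G p' w).card - 3 ≤ max (S G p w).card (P G p w).card - 3 + 1 := by
    omega
  split_ifs <;> omega

private theorem phi_mono {p p' : V → ℚ} {w : V} (h1 : (S G p' w).card ≤ (S G p w).card)
    (h2 : (P G p' w).card ≤ (P G p w).card) : phi G p' w ≤ phi G p w := by
  unfold phi
  exact Nat.mul_le_mul_left _ (Nat.sub_le_sub_right (max_le_max h1 h2) 3)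

theorem swap (hd : ∀ v, G.degree v ≤ 6) (hp : Function.Injective p)
    (h0 : ∀ v, G.degree v = 6 → (S G p v).card ≤ 3 ∧ (P G p v).card ≤ 3)
    (u d g : V) (hu : Mr G p u g) (hg : Ml G p d g) :
    ∃ p' : V → ℚ, Function.Injective p' ∧ Phi G p' < Phi G p := by
  classical
  obtain ⟨x, hx1, hx2⟩ := exists_right p g
  obtain ⟨y, hy1, hy2⟩ := exists_left p g
  have hgu := (mem_S G p u g).1 hu.1
  have hgd := (mem_P G p d g).1 hg.1
  have hud : u ≠ d := by
    rintro rfl
    exact lt_asymm hgu.2 hgd.2
  have hM : Mv p (Function.update (Function.update p u x) d y) u d g := by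
    refine ⟨hp, ?_, hgu.2, hgd.2, ?_, ?_, ?_, ?_⟩
    · intro v h1 h2
      rw [Function.update_of_ne h2, Function.update_of_ne h1]
    · rw [Function.update_of_ne hud, Function.update_self]
      exact hx1
    · intro v hv
      rw [Function.update_of_ne hud, Function.update_self]
      exact hx2 v hv
    · rw [Function.update_self]
      exact hy1
    · intro v hv
      rw [Function.update_self]
      exact hy2 v hv
  generalize Function.update (Function.update p u x) d y = p' at hM
  have hN := hM.neg
  refine ⟨p', ?_, ?_⟩
  · -- injective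
    have e1 : ∀ v, v ≠ u → v ≠ d → p' v ≠ p' u := by
      intro v h1 h2 h3
      rw [hM.o v h1 h2] at h3
      by_cases h4 : p g < p v
      · exact absurd h3 (hM.x2 v h4).ne'
      · exact absurd h3 (lt_of_le_of_lt (not_lt.1 h4) hM.x1).ne
    have e2 : ∀ v, v ≠ u → v ≠ d → p' v ≠ p' d := by
      intro v h1 h2 h3
      rw [hM.o v h1 h2] at h3
      by_cases h4 : p v < p g
      · exact absurd h3 (hM.y2 v h4).ne
      · exact absurd h3 (lt_of_lt_of_le hM.y1 (not_lt.1 h4)).ne'
    have e3 : p' d ≠ p' u := (hM.y1.trans hM.x1).ne
    intro v w hvw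
    by_cases hvu : v = u
    · subst hvu
      by_cases hwu : w = v
      · exact hwu.symm
      · by_cases hwd : w = d
        · subst hwd
          exact absurd hvw.symm e3
        · exact absurd hvw.symm (e1 w hwu hwd)
    · by_cases hvd : v = d
      · subst hvd
        by_cases hwu : w = u
        · subst hwu
          exact absurd hvw e3
        · by_cases hwd : w = v
          · exact hwd.symm
          · exact absurd hvw.symm (e2 w hwu hwd)
      · by_cases hwu : w = u
        · subst hwu
          exact absurd hvw (e1 v hvu hvd)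
        · by_cases hwd : w = d
          · subst hwd
            exact absurd hvw (e2 v hvu hvd)
          · rw [hM.o v hvu hvd, hM.o w hwu hwd] at hvw
            exact hp hvw
  · -- the potential
    have c1 : ((S G p u).filter fun v => p v < p g).card + 3 < (S G p u).card := hu.2
    have c2 : ((P G p d).filter fun v => p g < p v).card + 3 < (P G p d).card := hg.2
    have d1 : G.degree u ≠ 6 := fun h => by
      have := (h0 u h).1
      omega
    have d2 : G.degree d ≠ 6 := fun h => by
      have := (h0 d h).2
      omega
    have d3 : G.degree u ≤ 5 := by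
      have := hd u
      omega
    have d4 : G.degree d ≤ 5 := by
      have := hd d
      omega
    have s1 := card_add_le G p u
    have s2 := card_add_le G p d
    have f1 := phi_u hM d1 d3 hu
    have f2 := phi_u hN d2 d4 ((Mr_neg G p d g).2 hg)
    rw [phi_neg, phi_neg, S_neg] at f2
    have f3 : ((P G p d).filter fun v => - p v < - p g) = (P G p d).filter fun v => p g < p v := by
      ext v
      rw [mem_filter, mem_filter, neg_lt_neg_iff]
    rw [f3] at f2
    set Q := (S G p u).filter fun v => p v < p g with hQ
    set R := (P G p d).filter fun v => p g < p v with hR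
    have key : ∀ w ∈ (univ : Finset V), phi G p' w + ((if w = u then 2 * (Q.card + 1) else 0) +
        (if w = d then 2 * (R.card + 1) else 0)) ≤
        phi G p w + ((if w ∈ Q then 3 else 0) + (if w ∈ R then 3 else 0)) := by
      intro w _
      by_cases hwu : w = u
      · subst hwu
        rw [if_pos rfl, if_neg hud]
        omega
      · by_cases hwd : w = d
        · subst hwd
          rw [if_pos rfl, if_neg hwu]
          omega
        · rw [if_neg hwu, if_neg hwd]
          have a1 : (S G p' w).card ≤ (S G p w).card + 1 :=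
            (card_le_card (sub_S hM hwu hwd)).trans (card_insert_le _ _)
          have a2 : (P G p' w).card ≤ (P G p w).card + 1 := by
            have := (card_le_card (sub_S (G := G) hN hwd hwu)).trans (card_insert_le _ _)
            rw [S_neg, S_neg] at this
            exact this
          by_cases hwQ : w ∈ Q
          · rw [if_pos hwQ]
            have := phi_add3 G a1 a2
            omega
          · by_cases hwR : w ∈ R
            · rw [if_pos hwR]
              have := phi_add3 G a1 a2
              omega
            · rw [if_neg hwQ, if_neg hwR]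
              by_cases hwg : w = g
              · subst hwg
                have b1 := card_S_g hM hgd.1.symm
                have b2 := card_S_g hN hgu.1.symm
                rw [S_neg, S_neg] at b2
                have := phi_mono G b1 b2
                omega
              · have b1 := card_le_card (sub_S_o (G := G) hM hwu hwd hwg fun h =>
                  hwQ (by rw [hQ, mem_filter, mem_S]; exact ⟨⟨h.1, h.2.1⟩, h.2.2⟩))
                have b2 := card_le_card (sub_S_o (G := G) hN hwd hwu hwg fun h =>
                  hwR (by
                    rw [hR, mem_filter, mem_P]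
                    exact ⟨⟨h.1, neg_lt_neg_iff.1 h.2.1⟩, neg_lt_neg_iff.1 h.2.2⟩))
                rw [S_neg, S_neg] at b2
                have := phi_mono G b1 b2
                omega
    have hsum := sum_le_sum key
    rw [sum_add_distrib, sum_add_distrib, sum_add_distrib, sum_add_distrib, sum_ite_eq' univ u,
      sum_ite_eq' univ d, if_pos (mem_univ u), if_pos (mem_univ d), ← sum_filter, ← sum_filter,
      sum_const, sum_const, filter_mem_eq_inter, filter_mem_eq_inter, univ_inter, univ_inter,
      smul_eq_mul, smul_eq_mul] at hsum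
    unfold Phi
    omega

end Pool.Agent.Z6
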