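import Pool.Agent.Z6.Move
import Pool.Agent.Z6.Swap

/-!
MP_dadc3d_co, Z6. The order.

Among all injective `p : V → ℚ` (there is one: `V` is finite) take one with `Phi G p` minimal
(`Nat.find` or `WellFounded.min`). Then
(0) `degree u = 6` implies `(S u).card ≤ 3` (`move_median`) and `(P u).card ≤ 3` (`move_median` for
`fun v => - p v`, use `S_neg`, `Phi_neg`).
(1) `Mr u m` implies `(P m).card ≤ 3`: otherwise the degree of `m` is at most 5 by (0), so
`(S m).card ≤ 1`; `move_right` gives `p'` with `(S' m).card ≤ 2`, `(P' m).card = (P m).card - 1`, so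
`phi' m ≤ phi m` and `Phi' < Phi`.
(1') `Ml u m` implies `(S m).card ≤ 3`: (1) for `fun v => - p v` (`move_right` for it, `Mr_neg`).
(3) `Mr u g`, `Ml d g`: `swap` gives `Phi' < Phi`.
-/

set_option autoImplicit false

namespace Pool.Agent.Z6

open Finset

private theorem inj_neg {V : Type} {p : V → ℚ} (hp : Function.Injective p) :
    Function.Injective (fun v => - p v) := fun _ _ h => hp (neg_injective h)

private theorem exists_min {V : Type} [Fintype V] (G : SimpleGraph V) [DecidableRel G.Adj] :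
    ∃ p : V → ℚ, Function.Injective p ∧ ∀ q : V → ℚ, Function.Injective q → Phi G p ≤ Phi G q := by
  classical
  have hex : ∃ n : ℕ, ∃ p : V → ℚ, Function.Injective p ∧ Phi G p = n := by
    refine ⟨_, fun v => ((Fintype.equivFin V v : ℕ) : ℚ), ?_, rfl⟩
    intro a b hab
    have h1 : ((Fintype.equivFin V a : ℕ) : ℚ) = ((Fintype.equivFin V b : ℕ) : ℚ) := hab
    exact (Fintype.equivFin V).injective (Fin.ext (by exact_mod_cast h1))
  obtain ⟨p, hp, hpn⟩ := Nat.find_spec hex
  refine ⟨p, hp, fun q hq => ?_⟩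
  rw [hpn]
  exact Nat.find_min' hex ⟨q, hq, rfl⟩

private theorem half0 {V : Type} [Fintype V] (G : SimpleGraph V) [DecidableRel G.Adj]
    (hd : ∀ v, G.degree v ≤ 6) (hI : ∀ u v, G.degree u = 6 → G.degree v = 6 → ¬ G.Adj u v)
    {p : V → ℚ} (hp : Function.Injective p)
    (hmin : ∀ q : V → ℚ, Function.Injective q → Phi G p ≤ Phi G q) (u : V) (hu : G.degree u = 6) :
    (S G p u).card ≤ 3 := by
  by_contra hc
  obtain ⟨q, hq, hlt⟩ := move_median G p hd hp u hu (fun v hv hv6 => hI u v hu hv6 hv) (by omega)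
  exact absurd (hmin q hq) (by omega)

private theorem half1 {V : Type} [Fintype V] (G : SimpleGraph V) [DecidableRel G.Adj]
    (hd : ∀ v, G.degree v ≤ 6) {p : V → ℚ} (hp : Function.Injective p)
    (hmin : ∀ q : V → ℚ, Function.Injective q → Phi G p ≤ Phi G q)
    (h0 : ∀ v, G.degree v = 6 → (S G p v).card ≤ 3 ∧ (P G p v).card ≤ 3) (u m : V)
    (h : Mr G p u m) : (P G p m).card ≤ 3 := by
  by_contra hc
  have h6 : G.degree m ≠ 6 := fun h6 => hc (h0 m h6).2
  have h5 : G.degree m ≤ 6 := hd m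
  have h4 := card_add_le G p m
  obtain ⟨q, hq, e1, e2, e3⟩ := move_right G p hd hp h0 u m h
  have h7 : phi G q m ≤ phi G p m := by
    unfold phi
    rw [if_neg h6]
    have : max (S G q m).card (P G q m).card ≤ max (S G p m).card (P G p m).card := by
      refine max_le ?_ ?_
      · refine le_trans ?_ (le_max_right _ _)
        omega
      · refine le_trans ?_ (le_max_right _ _)
        omega
    omega
  exact absurd (hmin q hq) (by omega)

theorem exists_order {V : Type} [Fintype V] (G : SimpleGraph V) [DecidableRel G.Adj]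
    (hd : ∀ v, G.degree v ≤ 6) (hI : ∀ u v, G.degree u = 6 → G.degree v = 6 → ¬ G.Adj u v) :
    ∃ p : V → ℚ, Function.Injective p ∧
      (∀ u, G.degree u = 6 → (S G p u).card ≤ 3 ∧ (P G p u).card ≤ 3) ∧
      (∀ u m, Mr G p u m → (P G p m).card ≤ 3) ∧ (∀ u m, Ml G p u m → (S G p m).card ≤ 3) ∧
      (∀ u d g, Mr G p u g → Ml G p d g → False) := by
  obtain ⟨p, hp, hmin⟩ := exists_min G
  have hp' := inj_neg hp
  have hmin' : ∀ q : V → ℚ, Function.Injective q → Phi G (fun v => - p v) ≤ Phi G q := by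
    intro q hq
    rw [Phi_neg]
    exact hmin q hq
  have h0 : ∀ u, G.degree u = 6 → (S G p u).card ≤ 3 ∧ (P G p u).card ≤ 3 := by
    intro u hu
    refine ⟨half0 G hd hI hp hmin u hu, ?_⟩
    have h1 := half0 G hd hI hp' hmin' u hu
    rwa [S_neg] at h1
  have h0' : ∀ u, G.degree u = 6 → (S G (fun v => - p v) u).card ≤ 3 ∧
      (P G (fun v => - p v) u).card ≤ 3 := by
    intro u hu
    rw [S_neg, P_neg]
    exact (h0 u hu).symm
  refine ⟨p, hp, h0, fun u m h => half1 G hd hp hmin h0 u m h, fun u m h => ?_, fun u d g hu hg => ?_⟩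
  · have h1 := half1 G hd hp' hmin' h0' u m ((Mr_neg G p u m).2 h)
    rwa [P_neg] at h1
  · obtain ⟨q, hq, hlt⟩ := swap G p hd hp h0 u d g hu hg
    exact absurd (hmin q hq) (by omega)

end Pool.Agent.Z6
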