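import Mathlib

/-!
MP_dadc3d_co, Z6: graphs of maximum degree at most 6 in which the vertices of degree 6 are pairwise
not adjacent. Definitions.

`p` places the vertices at different points of a line. `S u` (`P u`): the neighbours of `u` on its
right (left). `Mr u m`: `m` is one of the nearest right neighbours of `u`, all but the last three.
`Ml u m`: the same on the left. `phi`, `Phi`: the potential which is minimised.
-/

set_option autoImplicit false

namespace Pool.Agent.Z6

open Finset

variable {V : Type} [Fintype V] (G : SimpleGraph V) [DecidableRel G.Adj] (p : V → ℚ)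

def S (u : V) : Finset V := univ.filter fun v => G.Adj u v ∧ p u < p v

def P (u : V) : Finset V := univ.filter fun v => G.Adj u v ∧ p v < p u

def Mr (u m : V) : Prop :=
  m ∈ S G p u ∧ ((S G p u).filter fun v => p v < p m).card + 3 < (S G p u).card

def Ml (u m : V) : Prop :=
  m ∈ P G p u ∧ ((P G p u).filter fun v => p m < p v).card + 3 < (P G p u).card

def phi (u : V) : ℕ :=
  (if G.degree u = 6 then 3 else 2) * (max (S G p u).card (P G p u).card - 3)

def Phi : ℕ := ∑ u, phi G p u

theorem mem_S (u v : V) : v ∈ S G p u ↔ G.Adj u v ∧ p u < p v := by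
  unfold S
  rw [mem_filter]
  exact ⟨fun h => h.2, fun h => ⟨mem_univ _, h⟩⟩

theorem mem_P (u v : V) : v ∈ P G p u ↔ G.Adj u v ∧ p v < p u := by
  unfold P
  rw [mem_filter]
  exact ⟨fun h => h.2, fun h => ⟨mem_univ _, h⟩⟩

theorem S_neg (u : V) : S G (fun v => - p v) u = P G p u := by
  ext v
  rw [mem_S, mem_P, neg_lt_neg_iff]

theorem P_neg (u : V) : P G (fun v => - p v) u = S G p u := by
  ext v
  rw [mem_S, mem_P, neg_lt_neg_iff]

theorem Mr_neg (u m : V) : Mr G (fun v => - p v) u m ↔ Ml G p u m := by
  unfold Mr Ml
  rw [S_neg]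
  have h : ((P G p u).filter fun v => - p v < - p m) = (P G p u).filter fun v => p m < p v := by
    ext v
    rw [mem_filter, mem_filter, neg_lt_neg_iff]
  rw [h]

theorem Ml_neg (u m : V) : Ml G (fun v => - p v) u m ↔ Mr G p u m := by
  unfold Mr Ml
  rw [P_neg]
  have h : ((S G p u).filter fun v => - p m < - p v) = (S G p u).filter fun v => p v < p m := by
    ext v
    rw [mem_filter, mem_filter, neg_lt_neg_iff]
  rw [h]

theorem phi_neg (u : V) : phi G (fun v => - p v) u = phi G p u := by
  unfold phi
  rw [S_neg, P_neg, max_comm]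

theorem Phi_neg : Phi G (fun v => - p v) = Phi G p := by
  unfold Phi
  exact sum_congr rfl fun u _ => phi_neg G p u

/-- the neighbours on the two sides are at most `degree u` -/
theorem card_add_le (u : V) : (S G p u).card + (P G p u).card ≤ G.degree u := by
  classical
  rw [← card_union_of_disjoint]
  · rw [← SimpleGraph.card_neighborFinset_eq_degree]
    refine card_le_card fun w hw => ?_
    rw [mem_union, mem_S, mem_P] at hw
    rw [SimpleGraph.mem_neighborFinset]
    rcases hw with hw | hw
    · exact hw.1
    · exact hw.1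
  · rw [disjoint_left]
    intro w hw hw'
    rw [mem_S] at hw
    rw [mem_P] at hw'
    exact lt_asymm hw.2 hw'.2

/-- a point just right of `t` -/
theorem exists_right (t : V) : ∃ x : ℚ, p t < x ∧ ∀ v, p t < p v → x < p v := by
  classical
  by_cases h : (univ.filter fun v => p t < p v).Nonempty
  · obtain ⟨m, hm, hmin⟩ := exists_min_image _ p h
    rw [mem_filter] at hm
    obtain ⟨x, hx1, hx2⟩ := exists_between hm.2
    refine ⟨x, hx1, fun v hv => lt_of_lt_of_le hx2 (hmin v ?_)⟩
    rw [mem_filter]
    exact ⟨mem_univ _, hv⟩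
  · refine ⟨p t + 1, by linarith, fun v hv => ?_⟩
    exact absurd ⟨v, by rw [mem_filter]; exact ⟨mem_univ _, hv⟩⟩ h

/-- a point just left of `t` -/
theorem exists_left (t : V) : ∃ x : ℚ, x < p t ∧ ∀ v, p v < p t → p v < x := by
  obtain ⟨x, h1, h2⟩ := exists_right (fun v => - p v) t
  refine ⟨-x, by linarith, fun v hv => ?_⟩
  have := h2 v (by linarith)
  linarith

end Pool.Agent.Z6
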