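import Pool.Agent.Z6.Tok

/-!
MP_dadc3d_co, Z6. The labels `τ u m` of the half-edges from `u` to moved neighbours, from `tok`.

If some `Mr u m` then `4 ≤ (S u).card`, so the degree of `u` is not 6 (`h0`), so at most 5, and
`(S u).card ∈ {4, 5}`, `(P u).card ≤ 5 - (S u).card` (`card_add_le`).
`up1 u := (S u).card = 4`, `up2 u := (S u).card = 5`. For `4 ≤ (S u).card` let `m1 u` be the member
of `S u` with the smallest `p`, and `m2 u` the member of `(S u).erase (m1 u)` with the smallest `p`
(otherwise anything, e.g. `u`). Then `Mr u m` iff (`up1 u` and `m = m1 u`) or (`up2 u` and (`m = m1 u`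
or `m = m2 u`)): the number of members of `S u` left of `m` is 0 exactly for `m1 u`, 1 exactly for
`m2 u`, and `Mr` says that this number is less than `(S u).card - 3`.
If `Mr u m` then `u ∈ P m`, so `(S m).card ≤ 4` if `4 ≤ (S m).card`; so `m` is not `up2`, and if `m` is
`up1` then `P m = {u}` (this gives `hu` of `tok`). So `(S m).card ≤ 3` iff not `up1 m` for such `m`.
Apply `tok` with `g1 u = γ (m1 u) u`, `g2 u = γ (m2 u) u`, and let
`τ u m = c u` if `up1 u`; otherwise `a u` if `m = m1 u`, `b u` if not.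
(r1) `a u ≠ b u`. (r2) `up1 u`: `m = m' = m1 u`; `up2 u`: the pairs `(m, m')` are `(m1, m1)`, `(m2, m1)`,
`(m2, m2)` (not `(m1, m2)` as `p m' ≤ p m`). (r3) `Mr m m'` with `Mr u m`: `m` is `up1`, `m' = m1 m`,
`τ m m' = c m`; for `m = m1 u`, `up2 u`: `a u ≠ b u = c (m1 u)`. (r4) `m' = m1 u`, `m = m2 u`, `up2 u`,
`up1 m'`, `τ m' n = c m' = b u`.
-/

set_option autoImplicit false

namespace Pool.Agent.Z6

open Finset

private theorem tr_bound {V : Type} [Fintype V] (G : SimpleGraph V) [DecidableRel G.Adj]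
    (p : V → ℚ) (hd : ∀ v, G.degree v ≤ 6)
    (h0 : ∀ v, G.degree v = 6 → (S G p v).card ≤ 3 ∧ (P G p v).card ≤ 3) (u : V)
    (h : 4 ≤ (S G p u).card) : (S G p u).card + (P G p u).card ≤ 5 := by
  have h1 := card_add_le G p u
  have h2 := hd u
  have h3 : G.degree u ≠ 6 := by
    intro h4
    have := (h0 u h4).1
    omega
  omega

/-- the nearest right neighbours -/
private theorem tr_m1 {V : Type} [Fintype V] (G : SimpleGraph V) [DecidableRel G.Adj]
    (p : V → ℚ) : ∃ m1 : V → V, ∀ u, 4 ≤ (S G p u).card →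
      m1 u ∈ S G p u ∧ ∀ v ∈ S G p u, p (m1 u) ≤ p v := by
  classical
  have h : ∀ u : V, ∃ m : V, 4 ≤ (S G p u).card → m ∈ S G p u ∧ ∀ v ∈ S G p u, p m ≤ p v := by
    intro u
    by_cases hu : 4 ≤ (S G p u).card
    · have hne : (S G p u).Nonempty := by
        rw [← card_pos]
        omega
      obtain ⟨m, hm, hmin⟩ := exists_min_image _ p hne
      exact ⟨m, fun _ => ⟨hm, hmin⟩⟩
    · exact ⟨u, fun h => absurd h hu⟩
  choose m1 hm1 using h
  exact ⟨m1, hm1⟩

private theorem tr_m2 {V : Type} [Fintype V] (G : SimpleGraph V) [DecidableRel G.Adj]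
    (p : V → ℚ) (hp : Function.Injective p) (m1 : V → V)
    (hm1 : ∀ u, 4 ≤ (S G p u).card → m1 u ∈ S G p u ∧ ∀ v ∈ S G p u, p (m1 u) ≤ p v) :
    ∃ m2 : V → V, ∀ u, 4 ≤ (S G p u).card →
      m2 u ∈ S G p u ∧ p (m1 u) < p (m2 u) ∧ ∀ v ∈ S G p u, v ≠ m1 u → p (m2 u) ≤ p v := by
  classical
  have h : ∀ u : V, ∃ m : V, 4 ≤ (S G p u).card →
      m ∈ S G p u ∧ p (m1 u) < p m ∧ ∀ v ∈ S G p u, v ≠ m1 u → p m ≤ p v := by
    intro u
    by_cases hu : 4 ≤ (S G p u).card
    · have h1 := hm1 u hu
      have hne : ((S G p u).erase (m1 u)).Nonempty := by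
        rw [← card_pos, card_erase_of_mem h1.1]
        omega
      obtain ⟨m, hm, hmin⟩ := exists_min_image _ p hne
      rw [mem_erase] at hm
      refine ⟨m, fun _ => ⟨hm.2, ?_, fun v hv hv1 => hmin v (mem_erase.2 ⟨hv1, hv⟩)⟩⟩
      rcases (h1.2 m hm.2).lt_or_eq with h2 | h2
      · exact h2
      · exact absurd (hp h2).symm hm.1
    · exact ⟨u, fun h => absurd h hu⟩
  choose m2 hm2 using h
  exact ⟨m2, hm2⟩

theorem right_tokens {V : Type} [Fintype V] (G : SimpleGraph V) [DecidableRel G.Adj] (p : V → ℚ)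
    (hd : ∀ v, G.degree v ≤ 6) (hp : Function.Injective p)
    (h0 : ∀ v, G.degree v = 6 → (S G p v).card ≤ 3 ∧ (P G p v).card ≤ 3)
    (γ : V → V → Fin 3) :
    ∃ τ : V → V → Fin 3,
      (∀ u m m', Mr G p u m → Mr G p u m' → τ u m = τ u m' → m = m') ∧
      (∀ u m m', Mr G p u m → Mr G p u m' → p m' ≤ p m → (S G p m').card ≤ 3 →
        τ u m ≠ γ m' u) ∧
      (∀ u m m', Mr G p u m → Mr G p m m' → τ u m ≠ τ m m') ∧
      (∀ u m m' n, Mr G p u m → Mr G p u m' → p m' < p m → Mr G p m' n → τ u m = τ m' n) := by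
  classical
  obtain ⟨m1, hm1⟩ := tr_m1 G p
  obtain ⟨m2, hm2⟩ := tr_m2 G p hp m1 hm1
  have hb := tr_bound G p hd h0
  have hPmem : ∀ u m, m ∈ S G p u → u ∈ P G p m := by
    intro u m hm
    rw [mem_S] at hm
    rw [mem_P]
    exact ⟨hm.1.symm, hm.2⟩
  -- the members counted by `Mr`
  have hchar : ∀ u m, Mr G p u m → ((S G p u).card = 4 ∧ m = m1 u) ∨
      ((S G p u).card = 5 ∧ (m = m1 u ∨ m = m2 u)) := by
    intro u m hm
    obtain ⟨hmS, hlt⟩ := hm
    have h4 : 4 ≤ (S G p u).card := by omega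
    have h5 := hb u h4
    obtain ⟨a1, a2⟩ := hm1 u h4
    obtain ⟨b1, b2, b3⟩ := hm2 u h4
    by_cases e1 : m = m1 u
    · rcases (by omega : (S G p u).card = 4 ∨ (S G p u).card = 5) with h | h
      · exact Or.inl ⟨h, e1⟩
      · exact Or.inr ⟨h, Or.inl e1⟩
    · have c1 : p (m1 u) < p m := by
        rcases (a2 m hmS).lt_or_eq with h | h
        · exact h
        · exact absurd (hp h).symm e1
      have c2 : m1 u ∈ (S G p u).filter fun v => p v < p m := mem_filter.2 ⟨a1, c1⟩
      have c3 : 0 < ((S G p u).filter fun v => p v < p m).card := card_pos.2 ⟨_, c2⟩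
      have c4 : (S G p u).card = 5 := by omega
      refine Or.inr ⟨c4, Or.inr ?_⟩
      by_contra e2
      have d1 : p (m2 u) < p m := by
        rcases (b3 m hmS e1).lt_or_eq with h | h
        · exact h
        · exact absurd (hp h).symm e2
      have d2 : m2 u ∈ (S G p u).filter fun v => p v < p m := mem_filter.2 ⟨b1, d1⟩
      have d3 : m1 u ≠ m2 u := by
        intro h
        rw [h] at b2
        exact lt_irrefl _ b2
      have d4 : 1 < ((S G p u).filter fun v => p v < p m).card :=
        one_lt_card.2 ⟨_, c2, _, d2, d3⟩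
      omega
  -- a moved neighbour with moved neighbours
  have hup : ∀ u m m', Mr G p u m → Mr G p m m' → (S G p m).card = 4 := by
    intro u m m' h1 h2
    have h3 : 4 ≤ (S G p m).card := by
      have := h2.2
      omega
    have h4 := hb m h3
    have h5 : 0 < (P G p m).card := card_pos.2 ⟨u, hPmem u m h1.1⟩
    omega
  obtain ⟨c, a, b, hc, hab⟩ := tok p hp (fun u => (S G p u).card = 4)
    (fun u => (S G p u).card = 5) m1 m2 (fun u => γ (m1 u) u) (fun u => γ (m2 u) u) (by
      intro v hv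
      have hv' : (S G p v).card = 4 := hv
      have := (hm1 v (by omega)).1
      rw [mem_S] at this
      exact this.2) (by
      intro v hv
      have hv' : (S G p v).card = 5 := hv
      have h1 := (hm1 v (by omega)).1
      rw [mem_S] at h1
      exact ⟨h1.2, (hm2 v (by omega)).2.1⟩) (by
      intro u u' hu hu' h1 h2
      have hu1 : (S G p u).card = 5 := hu
      have hu1' : (S G p u').card = 5 := hu'
      have h2' : (S G p (m1 u)).card = 4 := h2
      have h3 := hb (m1 u) (by omega)
      have h4 : (P G p (m1 u)).card ≤ 1 := by omega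
      rw [card_le_one] at h4
      refine h4 u (hPmem _ _ (hm1 u (by omega)).1) u' ?_
      rw [h1]
      exact hPmem _ _ (hm1 u' (by omega)).1)
  have hne : ∀ u, (S G p u).card = 5 → m2 u ≠ m1 u := by
    intro u hu h
    have := (hm2 u (by omega)).2.1
    rw [h] at this
    exact lt_irrefl _ this
  refine ⟨fun u m => if (S G p u).card = 4 then c u else if m = m1 u then a u else b u,
    ?_, ?_, ?_, ?_⟩
  · intro u m m' h1 h2 h3
    rcases hchar u m h1 with ⟨e, e1⟩ | ⟨e, e1⟩
    · rcases hchar u m' h2 with ⟨f, f1⟩ | ⟨f, f1⟩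
      · rw [e1, f1]
      · omega
    · rcases hchar u m' h2 with ⟨f, f1⟩ | ⟨f, f1⟩
      · omega
      · have h4 : (S G p u).card ≠ 4 := by omega
        simp only [if_neg h4] at h3
        rcases e1 with e1 | e1 <;> rcases f1 with f1 | f1
        · rw [e1, f1]
        · rw [e1, f1, if_pos rfl, if_neg (hne u e)] at h3
          exact absurd h3 (hab u e).1
        · rw [e1, f1, if_pos rfl, if_neg (hne u e)] at h3
          exact absurd h3.symm (hab u e).1
        · rw [e1, f1]
  · intro u m m' h1 h2 h3 h4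
    rcases hchar u m h1 with ⟨e, e1⟩ | ⟨e, e1⟩
    · rcases hchar u m' h2 with ⟨f, f1⟩ | ⟨f, f1⟩
      · simp only [if_pos e]
        rw [f1] at h4 ⊢
        exact (hc u e).1 (by omega)
      · omega
    · rcases hchar u m' h2 with ⟨f, f1⟩ | ⟨f, f1⟩
      · omega
      · have h5 : (S G p u).card ≠ 4 := by omega
        simp only [if_neg h5]
        obtain ⟨-, k1, -, k2, -⟩ := hab u e
        rcases e1 with e1 | e1 <;> rcases f1 with f1 | f1
        · rw [f1] at h4 ⊢
          rw [e1, if_pos rfl]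
          exact (k1 (by omega)).1
        · exfalso
          rw [e1, f1] at h3
          exact absurd (hm2 u (by omega)).2.1 (not_lt.2 h3)
        · rw [f1] at h4 ⊢
          rw [e1, if_neg (hne u e)]
          exact (k1 (by omega)).2
        · rw [f1] at h4 ⊢
          rw [e1, if_neg (hne u e)]
          exact k2 (by omega)
  · intro u m m' h1 h2
    have h3 := hup u m m' h1 h2
    simp only [if_pos h3]
    rcases hchar u m h1 with ⟨e, e1⟩ | ⟨e, e1⟩
    · simp only [if_pos e]
      rw [e1] at h3 ⊢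
      exact (hc u e).2 h3
    · have h5 : (S G p u).card ≠ 4 := by omega
      simp only [if_neg h5]
      obtain ⟨k0, -, k1, -, k2⟩ := hab u e
      rcases e1 with e1 | e1
      · rw [e1] at h3 ⊢
        rw [if_pos rfl, ← k1 h3]
        exact k0
      · rw [e1] at h3 ⊢
        rw [if_neg (hne u e)]
        exact k2 h3
  · intro u m m' n h1 h2 h3 h4
    have h5 := hup u m' n h2 h4
    simp only [if_pos h5]
    rcases hchar u m h1 with ⟨e, e1⟩ | ⟨e, e1⟩
    · rcases hchar u m' h2 with ⟨f, f1⟩ | ⟨f, f1⟩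
      · rw [e1, f1] at h3
        exact absurd h3 (lt_irrefl _)
      · omega
    · rcases hchar u m' h2 with ⟨f, f1⟩ | ⟨f, f1⟩
      · omega
      · have h6 : (S G p u).card ≠ 4 := by omega
        simp only [if_neg h6]
        obtain ⟨-, -, k1, -, -⟩ := hab u e
        rcases e1 with e1 | e1 <;> rcases f1 with f1 | f1
        · rw [e1, f1] at h3
          exact absurd h3 (lt_irrefl _)
        · rw [e1, f1] at h3
          exact absurd h3 (not_lt.2 (hm2 u (by omega)).2.1.le)
        · rw [f1] at h5 ⊢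
          rw [e1, if_neg (hne u e)]
          exact k1 h5
        · rw [e1, f1] at h3
          exact absurd h3 (lt_irrefl _)

end Pool.Agent.Z6
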