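import Pool.Agent.Z6.Defs

/-!
MP_dadc3d_co, Z6. The K condition. (Compare Pool/Agent/BP/Win.lean, which has the same structure.)

Classes of the neighbours of `u`: A = right and not moved, or moved left (`Ml`); B = left and not
moved, or moved right (`Mr`). In every class the labels are different (`hA`, `hB`).
Segments: `Mr u m`, `v ∈ S u`, `p v ≤ p m` imply `Mr u v`; the same for `Ml` (immediate from the
definitions, `hp` for equality). `Mr u m` implies `4 ≤ (S u).card`, `Ml u m` implies `4 ≤ (P u).card`;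
not both for the same `u` (`card_add_le`, `hd`).

Proof. Call `u` in `W` left-special (L) if there is `m` in `W` with `Mr u m`, `α u m = a`;
right-special (R) if there is `m` in `W` with `Ml u m`, `α u m = a`. If `u` is L with `m`, then `m` is
not L by `hE1`; if `u` is R with `m`, then `m` is not R by `hE2`.
Let `g` be the member of `W` not L with the smallest `p` (exists: if `w` is L then its `m` is not L).
(1) `g` has no half of label `a` to a `u` in `W` with `p u < p g` (that is `G.Adj g u` implies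
`α g u ≠ a`): `u` is L by minimality, with `m`, and `m` is not L, so `p g ≤ p m`; `g ∈ S u`, so
`Mr u g` (segment). By `hc1` (with `m' = g`) `α g u ≠ α u m = a`.
(2) so `g` has at most one `v'` in `W` with `G.Adj g v'`, `α g v' = a`: such a `v'` has `p g < p v'` by
(1) and `hp`; not `Mr g v'` (otherwise `g` would be L), so it is in class A, and `hA` gives uniqueness.
In the same way the member `g'` of `W` not R with the largest `p` has no half of label `a` to a `u` in
`W` with `p g' < p u`, and at most one `v'` (`hE2`, `hc2`, class B, `hB`).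
If `w ≠ g` take `g`; if `w = g ≠ g'` take `g'`. Let `w = g = g'`. Every other member `u` of `W` is L (if
`p u < p g`) or R (if `p g < p u`). Take any `u ≠ g` in `W` (2 ≤ card), say `p u < p g` (the other case
is symmetric). `u` is L with `m` in `W`; `m` is not L, so not `p m < p g`; if `p g < p m` then `m` is R,
so some `Ml m n`, `4 ≤ (P m).card`, contradiction with `h1`. So `m = g`, `Mr u g`. No `d` in `W` has
`p g < p d`: it would be R, with `n`, and in the same way (`h1'`) `n = g`, `Ml d g`, contradiction with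
`h3`. Now `u` has at most one `v'` in `W` with `G.Adj u v'`, `α u v' = a`: at most one in class B by
`hB`, and none in class A: not `Ml u v'` (not both kinds), so `p u < p v'`, not `Mr u v'`, so `p g < p v'`
by the segment property and `Mr u g`; but there is no such member of `W`. Take `u`.
-/

set_option autoImplicit false

namespace Pool.Agent.Z6

open Finset

section aux

variable {V : Type} [Fintype V] (G : SimpleGraph V) [DecidableRel G.Adj] (p : V → ℚ)

private theorem Win_mr_adj {u m : V} (h : Mr G p u m) : G.Adj u m ∧ p u < p m :=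
  (mem_S G p u m).1 h.1

private theorem Win_ml_adj {u m : V} (h : Ml G p u m) : G.Adj u m ∧ p m < p u :=
  (mem_P G p u m).1 h.1

private theorem Win_seg_r {u m v : V} (h : Mr G p u m) (hadj : G.Adj u v) (hlt : p u < p v)
    (hle : p v ≤ p m) : Mr G p u v := by
  refine ⟨(mem_S G p u v).2 ⟨hadj, hlt⟩, ?_⟩
  have h1 : ((S G p u).filter fun x => p x < p v).card ≤ ((S G p u).filter fun x => p x < p m).card := by
    refine card_le_card fun x hx => ?_
    rw [mem_filter] at hx ⊢
    exact ⟨hx.1, lt_of_lt_of_le hx.2 hle⟩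
  have h2 := h.2
  omega

private theorem Win_seg_l {u m v : V} (h : Ml G p u m) (hadj : G.Adj u v) (hlt : p v < p u)
    (hle : p m ≤ p v) : Ml G p u v := by
  refine ⟨(mem_P G p u v).2 ⟨hadj, hlt⟩, ?_⟩
  have h1 : ((P G p u).filter fun x => p v < p x).card ≤ ((P G p u).filter fun x => p m < p x).card := by
    refine card_le_card fun x hx => ?_
    rw [mem_filter] at hx ⊢
    exact ⟨hx.1, lt_of_le_of_lt hle hx.2⟩
  have h2 := h.2
  omega

private theorem Win_four_r {u m : V} (h : Mr G p u m) : 4 ≤ (S G p u).card := by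
  have := h.2
  omega

private theorem Win_four_l {u m : V} (h : Ml G p u m) : 4 ≤ (P G p u).card := by
  have := h.2
  omega

private theorem Win_not_both (hd : ∀ v, G.degree v ≤ 6) {u m m' : V} (h : Mr G p u m)
    (h' : Ml G p u m') : False := by
  have e1 := Win_four_r G p h
  have e2 := Win_four_l G p h'
  have e3 := card_add_le G p u
  have e4 := hd u
  omega

end aux

theorem win {V : Type} [Fintype V] (G : SimpleGraph V) [DecidableRel G.Adj] (p : V → ℚ)
    (hd : ∀ v, G.degree v ≤ 6) (hp : Function.Injective p) (α : V → V → Fin 3)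
    (h1 : ∀ u m, Mr G p u m → (P G p m).card ≤ 3) (h1' : ∀ u m, Ml G p u m → (S G p m).card ≤ 3)
    (h3 : ∀ u d g, Mr G p u g → Ml G p d g → False)
    (hA : ∀ u v w, G.Adj u v → G.Adj u w → ((p u < p v ∧ ¬ Mr G p u v) ∨ Ml G p u v) →
      ((p u < p w ∧ ¬ Mr G p u w) ∨ Ml G p u w) → α u v = α u w → v = w)
    (hB : ∀ u v w, G.Adj u v → G.Adj u w → ((p v < p u ∧ ¬ Ml G p u v) ∨ Mr G p u v) →
      ((p w < p u ∧ ¬ Ml G p u w) ∨ Mr G p u w) → α u v = α u w → v = w)
    (hc1 : ∀ u m m', Mr G p u m → Mr G p u m' → p m' ≤ p m → α m' u ≠ α u m)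
    (hc2 : ∀ u m m', Ml G p u m → Ml G p u m' → p m ≤ p m' → α m' u ≠ α u m)
    (hE1 : ∀ u m m', Mr G p u m → Mr G p m m' → α u m ≠ α m m')
    (hE2 : ∀ u m m', Ml G p u m → Ml G p m m' → α u m ≠ α m m')
    (a : Fin 3) (W : Finset V) (w : V) (hw : w ∈ W) (hW : 2 ≤ W.card) :
    ∃ v ∈ W, v ≠ w ∧ (W.filter fun v' => G.Adj v v' ∧ α v v' = a).card ≤ 1 := by
  classical
  -- left-special and right-special
  obtain ⟨LS, hLS⟩ : ∃ LS : V → Prop, LS = fun u => ∃ m ∈ W, Mr G p u m ∧ α u m = a :=
    ⟨_, rfl⟩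
  obtain ⟨RS, hRS⟩ : ∃ RS : V → Prop, RS = fun u => ∃ m ∈ W, Ml G p u m ∧ α u m = a :=
    ⟨_, rfl⟩
  have hLv : ∀ u, LS u ↔ ∃ m ∈ W, Mr G p u m ∧ α u m = a := fun u => by rw [hLS]
  have hRv : ∀ u, RS u ↔ ∃ m ∈ W, Ml G p u m ∧ α u m = a := fun u => by rw [hRS]
  have hmL : ∀ u m, Mr G p u m → α u m = a → ¬ LS m := fun u m h ha hl => by
    obtain ⟨m', -, hm', ha'⟩ := (hLv m).1 hl
    exact hE1 u m m' h hm' (ha.trans ha'.symm)
  have hmR : ∀ u m, Ml G p u m → α u m = a → ¬ RS m := fun u m h ha hl => by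
    obtain ⟨m', -, hm', ha'⟩ := (hRv m).1 hl
    exact hE2 u m m' h hm' (ha.trans ha'.symm)
  have hneL : (W.filter fun u => ¬ LS u).Nonempty := by
    by_cases h : LS w
    · obtain ⟨m, hmW, hm, ha⟩ := (hLv w).1 h
      exact ⟨m, mem_filter.2 ⟨hmW, hmL w m hm ha⟩⟩
    · exact ⟨w, mem_filter.2 ⟨hw, h⟩⟩
  have hneR : (W.filter fun u => ¬ RS u).Nonempty := by
    by_cases h : RS w
    · obtain ⟨m, hmW, hm, ha⟩ := (hRv w).1 h
      exact ⟨m, mem_filter.2 ⟨hmW, hmR w m hm ha⟩⟩
    · exact ⟨w, mem_filter.2 ⟨hw, h⟩⟩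
  obtain ⟨g, hg, hgmin⟩ := exists_min_image _ p hneL
  obtain ⟨g', hg', hgmax⟩ := exists_max_image _ p hneR
  rw [mem_filter] at hg hg'
  have hLof : ∀ u ∈ W, p u < p g → LS u := fun u hu hlt => by
    by_contra hcon
    exact absurd (hgmin u (mem_filter.2 ⟨hu, hcon⟩)) (not_le.2 hlt)
  have hRof : ∀ u ∈ W, p g' < p u → RS u := fun u hu hlt => by
    by_contra hcon
    exact absurd (hgmax u (mem_filter.2 ⟨hu, hcon⟩)) (not_le.2 hlt)
  -- (1)
  have k1 : ∀ u ∈ W, G.Adj g u → p u < p g → α g u ≠ a := by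
    intro u hu hadj hlt
    obtain ⟨m, hmW, hm, ham⟩ := (hLv u).1 (hLof u hu hlt)
    have hgm : p g ≤ p m := hgmin m (mem_filter.2 ⟨hmW, hmL u m hm ham⟩)
    have hMg : Mr G p u g := Win_seg_r G p hm hadj.symm hlt hgm
    rw [← ham]
    exact hc1 u m g hm hMg hgm
  have k1' : ∀ u ∈ W, G.Adj g' u → p g' < p u → α g' u ≠ a := by
    intro u hu hadj hlt
    obtain ⟨m, hmW, hm, ham⟩ := (hRv u).1 (hRof u hu hlt)
    have hgm : p m ≤ p g' := hgmax m (mem_filter.2 ⟨hmW, hmR u m hm ham⟩)
    have hMg : Ml G p u g' := Win_seg_l G p hm hadj.symm hlt hgm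
    rw [← ham]
    exact hc2 u m g' hm hMg hgm
  -- (2)
  have k2 : ∀ v ∈ W, G.Adj g v → α g v = a → p g < p v ∧ ¬ Mr G p g v := by
    intro v hv hadj ha
    have hne : p v ≠ p g := fun h => hadj.ne (hp h).symm
    have hlt : p g < p v := by
      rcases lt_or_gt_of_ne hne with h | h
      · exact absurd ha (k1 v hv hadj h)
      · exact h
    exact ⟨hlt, fun hMv => hg.2 ((hLv g).2 ⟨v, hv, hMv, ha⟩)⟩
  have k2' : ∀ v ∈ W, G.Adj g' v → α g' v = a → p v < p g' ∧ ¬ Ml G p g' v := by
    intro v hv hadj ha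
    have hne : p v ≠ p g' := fun h => hadj.ne (hp h).symm
    have hlt : p v < p g' := by
      rcases lt_or_gt_of_ne hne with h | h
      · exact h
      · exact absurd ha (k1' v hv hadj h)
    exact ⟨hlt, fun hMv => hg'.2 ((hRv g').2 ⟨v, hv, hMv, ha⟩)⟩
  by_cases hgw : g = w
  · by_cases hgw' : g' = w
    · have hLof' : ∀ u ∈ W, p u < p w → LS u := fun u hu hlt => hLof u hu (by rw [hgw]; exact hlt)
      have hRof' : ∀ u ∈ W, p w < p u → RS u := fun u hu hlt => hRof u hu (by rw [hgw']; exact hlt)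
      -- left members lead to `w`
      have q1 : ∀ u ∈ W, p u < p w → Mr G p u w := by
        intro u hu hlt
        obtain ⟨m, hmW, hm, ham⟩ := (hLv u).1 (hLof' u hu hlt)
        have e1 : ¬ p m < p w := fun h => hmL u m hm ham (hLof' m hmW h)
        have e2 : ¬ p w < p m := fun h => by
          obtain ⟨n, -, hn, -⟩ := (hRv m).1 (hRof' m hmW h)
          have e3 := Win_four_l G p hn
          have e4 := h1 u m hm
          omega
        have e5 : m = w := hp (le_antisymm (not_lt.1 e2) (not_lt.1 e1))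
        rw [← e5]
        exact hm
      have q2 : ∀ u ∈ W, p w < p u → Ml G p u w := by
        intro u hu hlt
        obtain ⟨m, hmW, hm, ham⟩ := (hRv u).1 (hRof' u hu hlt)
        have e1 : ¬ p w < p m := fun h => hmR u m hm ham (hRof' m hmW h)
        have e2 : ¬ p m < p w := fun h => by
          obtain ⟨n, -, hn, -⟩ := (hLv m).1 (hLof' m hmW h)
          have e3 := Win_four_r G p hn
          have e4 := h1' u m hm
          omega
        have e5 : m = w := hp (le_antisymm (not_lt.1 e1) (not_lt.1 e2))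
        rw [← e5]
        exact hm
      obtain ⟨u, hu, huw⟩ := exists_mem_ne (by omega : 1 < W.card) w
      refine ⟨u, hu, huw, ?_⟩
      have hpne : p u ≠ p w := fun h => huw (hp h)
      rcases lt_or_gt_of_ne hpne with h | h
      · have hMu : Mr G p u w := q1 u hu h
        have hcl : ∀ v ∈ W, G.Adj u v → (p v < p u ∧ ¬ Ml G p u v) ∨ Mr G p u v := by
          intro v hv hadj
          have hne : p v ≠ p u := fun h' => hadj.ne (hp h').symm
          rcases lt_or_gt_of_ne hne with h' | h'
          · exact Or.inl ⟨h', fun hl => Win_not_both G p hd hMu hl⟩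
          · right
            refine Win_seg_r G p hMu hadj h' (not_lt.1 fun h'' => ?_)
            exact h3 u v w hMu (q2 v hv h'')
        rw [card_le_one]
        intro v hv v' hv'
        rw [mem_filter] at hv hv'
        exact hB u v v' hv.2.1 hv'.2.1 (hcl v hv.1 hv.2.1) (hcl v' hv'.1 hv'.2.1)
          (hv.2.2.trans hv'.2.2.symm)
      · have hMu : Ml G p u w := q2 u hu h
        have hcl : ∀ v ∈ W, G.Adj u v → (p u < p v ∧ ¬ Mr G p u v) ∨ Ml G p u v := by
          intro v hv hadj
          have hne : p v ≠ p u := fun h' => hadj.ne (hp h').symm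
          rcases lt_or_gt_of_ne hne with h' | h'
          · right
            refine Win_seg_l G p hMu hadj h' (not_lt.1 fun h'' => ?_)
            exact h3 v u w (q1 v hv h'') hMu
          · exact Or.inl ⟨h', fun hl => Win_not_both G p hd hl hMu⟩
        rw [card_le_one]
        intro v hv v' hv'
        rw [mem_filter] at hv hv'
        exact hA u v v' hv.2.1 hv'.2.1 (hcl v hv.1 hv.2.1) (hcl v' hv'.1 hv'.2.1)
          (hv.2.2.trans hv'.2.2.symm)
    · refine ⟨g', hg'.1, hgw', ?_⟩
      rw [card_le_one]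
      intro v hv v' hv'
      rw [mem_filter] at hv hv'
      exact hB g' v v' hv.2.1 hv'.2.1 (Or.inl (k2' v hv.1 hv.2.1 hv.2.2))
        (Or.inl (k2' v' hv'.1 hv'.2.1 hv'.2.2)) (hv.2.2.trans hv'.2.2.symm)
  · refine ⟨g, hg.1, hgw, ?_⟩
    rw [card_le_one]
    intro v hv v' hv'
    rw [mem_filter] at hv hv'
    exact hA g v v' hv.2.1 hv'.2.1 (Or.inl (k2 v hv.1 hv.2.1 hv.2.2))
      (Or.inl (k2 v' hv'.1 hv'.2.1 hv'.2.2)) (hv.2.2.trans hv'.2.2.symm)

end Pool.Agent.Z6
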