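import Pool.Agent.BP.Choose
import Pool.Agent.BP.Base
import Pool.Agent.Z6.TokR
import Pool.Agent.Z6.Win

/-!
MP_dadc3d_co, Z6. The labels. (Compare Pool/Agent/BP/Lab.lean.)

Use `classical`. Facts: `Mr u m` implies `4 ≤ (S u).card`, then the degree of `u` is at most 5 (`h0`) and
`(P u).card ≤ 1`; the same for `Ml`, with `S` and `P` exchanged. Not `Mr u m` and `Ml u n`.
* `γ` from `BP.base` for `M u v := Mr u v ∨ Ml u v`; the hypotheses: `BP.cnt_rest p _ (S u)` and
  `BP.cnt_rest (fun v => - p v) _ (P u)` (if `p u < p v` then `M u v` iff `Mr u v`).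
* `τ` from `right_tokens p γ`; `σ` from `right_tokens (fun v => - p v) γ` (via `S_neg`, `P_neg`,
  `Mr_neg`): the same four properties with `Ml`, `P` instead of `S`, `p m ≤ p m'` etc.
* light halves to the left: for every `u` there is `π u : Fin 3` such that, if `4 ≤ (S u).card`, for all
  `q ∈ P u`: (a) `π u ≠ τ u m` for `Mr u m`; (b) if `Mr q u`: `π u ≠ τ q m` for all `m` with `Mr q m`,
  `p u ≤ p m`; (c) if not `Mr q u` and `(P q).card ≤ 3`: `π u ≠ γ q u`. Proof: if `P u` is empty nothing;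
  otherwise `P u = {q}`, `(S u).card = 4`, and there is exactly one `n` with `Mr u n`
  (`BP.cnt_moved p _ (S u)` gives at most one). Two values have to be avoided: `τ u n`, and in case (b)
  `τ q u`: for `m` with `p u < p m` we have `τ q m = τ u n` by the fourth property of `τ`; in case (c)
  `γ q u`.
* light halves to the right: for every `u` there is `ρ u` such that, if `4 ≤ (P u).card`, for all
  `q ∈ S u`: (a') `ρ u ≠ σ u m` for `Ml u m`; (b') if `Ml q u`: `ρ u ≠ σ q m` for all `m` with `Ml q m`,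
  `p m ≤ p u`; (c') if not `Ml q u` and `(S q).card ≤ 3`: `ρ u ≠ γ q u`; (d') if `4 ≤ (S q).card`:
  `ρ u ≠ π q` (in this case not `Ml q u`, so two values again).
Let `α u v = τ u v` if `Mr u v`; else `σ u v` if `Ml u v`; else `π u` if `4 ≤ (S u).card` and
`p v < p u`; else `ρ u` if `4 ≤ (P u).card` and `p u < p v`; else `γ u v`.

Mates: let `G.Adj u v`, `p u < p v` (otherwise exchange). `α u v` is `τ u v` (if `Mr u v`), or `ρ u` (if
`4 ≤ (P u).card`, then not `Mr u v`), or `γ u v`; `α v u` is `σ v u` (if `Ml v u`), or `π v` (if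
`4 ≤ (S v).card`, then not `Ml v u`), or `γ v u`.
 `τ u v`, `σ v u`: not possible, `h1` (`4 ≤ (P v).card`). `τ u v`, `π v`: (b) with `q = u`, `m = v`.
 `τ u v`, `γ v u`: second property of `τ` (`m = m' = v`, `(S v).card ≤ 3`). `ρ u`, `σ v u`: (b') with
 `q = v`, `m = u`. `ρ u`, `π v`: (d'). `ρ u`, `γ v u`: (c') with `q = v`. `γ u v`, `σ v u`: second property
 of `σ`. `γ u v`, `π v`: (c) with `q = u` (`(P u).card ≤ 3`). `γ`, `γ`: `BP.base`.
Class A of `u` (right not moved, or `Ml`): if `4 ≤ (P u).card`: `(S u).card ≤ 1`; two `Ml`: first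
 property of `σ`; `Ml` and right: (a'); two right: equal. Otherwise no `Ml`, and `α u v = γ u v` for the
 right not moved ones: `BP.base`. Class B in the same way.
`hc1` of `win`: `Mr u m`, `Mr u m'`, `p m' ≤ p m`: `α u m = τ u m`, and `(P m').card ≤ 3` (`h1`), so not
 `Ml m' u`; if `4 ≤ (S m').card`: `α m' u = π m'`, (b) with `q = u`; otherwise `α m' u = γ m' u`, second
 property. `hc2` in the same way. `hE1`, `hE2`: third properties.
Two per label: at most one in class A and at most one in class B. The K condition: `win`.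
-/

set_option autoImplicit false

namespace Pool.Agent.Z6

open Finset

private theorem third (x y : Fin 3) : ∃ z, z ≠ x ∧ z ≠ y := by
  revert x y
  decide

section aux

variable {V : Type} [Fintype V] {G : SimpleGraph V} [DecidableRel G.Adj] {p : V → ℚ}

private theorem mr_lt {u m : V} (h : Mr G p u m) : G.Adj u m ∧ p u < p m := (mem_S G p u m).1 h.1

private theorem ml_lt {u m : V} (h : Ml G p u m) : G.Adj u m ∧ p m < p u := (mem_P G p u m).1 h.1

private theorem mr_four {u m : V} (h : Mr G p u m) : 4 ≤ (S G p u).card := by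
  have := h.2
  omega

private theorem ml_four {u m : V} (h : Ml G p u m) : 4 ≤ (P G p u).card := by
  have := h.2
  omega

private theorem four_S (hd : ∀ v, G.degree v ≤ 6)
    (h0 : ∀ v, G.degree v = 6 → (S G p v).card ≤ 3 ∧ (P G p v).card ≤ 3) {u : V}
    (h : 4 ≤ (S G p u).card) : (S G p u).card + (P G p u).card ≤ 5 := by
  have h1 := card_add_le G p u
  have h2 := hd u
  have h3 : G.degree u ≠ 6 := fun h4 => by
    have := (h0 u h4).1
    omega
  omega

private theorem four_P (hd : ∀ v, G.degree v ≤ 6)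
    (h0 : ∀ v, G.degree v = 6 → (S G p v).card ≤ 3 ∧ (P G p v).card ≤ 3) {u : V}
    (h : 4 ≤ (P G p u).card) : (S G p u).card + (P G p u).card ≤ 5 := by
  have h1 := card_add_le G p u
  have h2 := hd u
  have h3 : G.degree u ≠ 6 := fun h4 => by
    have := (h0 u h4).2
    omega
  omega

/-- the nearest right neighbour is moved if there are at least four -/
private theorem exists_mr {u : V} (h : 4 ≤ (S G p u).card) : ∃ n, Mr G p u n := by
  have hne : (S G p u).Nonempty := card_pos.1 (by omega)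
  obtain ⟨n, hn, hmin⟩ := exists_min_image _ p hne
  refine ⟨n, hn, ?_⟩
  have h0 : ((S G p u).filter fun v => p v < p n) = ∅ := by
    rw [filter_eq_empty_iff]
    intro v hv
    exact not_lt.2 (hmin v hv)
  rw [h0, card_empty]
  omega

/-- the label of the light half -/
private theorem light (hd : ∀ v, G.degree v ≤ 6) (hp : Function.Injective p)
    (h0 : ∀ v, G.degree v = 6 → (S G p v).card ≤ 3 ∧ (P G p v).card ≤ 3) (τ : V → V → Fin 3)
    (t4 : ∀ u m m' n, Mr G p u m → Mr G p u m' → p m' < p m → Mr G p m' n → τ u m = τ m' n)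
    (κ : V → Fin 3) (u : V) :
    ∃ z : Fin 3, 4 ≤ (S G p u).card → ∀ q ∈ P G p u, (∀ m, Mr G p u m → z ≠ τ u m) ∧
      (Mr G p q u → ∀ m, Mr G p q m → p u ≤ p m → z ≠ τ q m) ∧ (¬ Mr G p q u → z ≠ κ q) := by
  classical
  by_cases hS : 4 ≤ (S G p u).card
  swap
  · exact ⟨0, fun h => absurd h hS⟩
  by_cases hP : (P G p u).Nonempty
  swap
  · exact ⟨0, fun _ q hq => absurd ⟨q, hq⟩ hP⟩
  obtain ⟨q, hq⟩ := hP
  have h5 := four_S hd h0 hS
  have hP1 : (P G p u).card ≤ 1 := by omega
  have hP0 : 0 < (P G p u).card := card_pos.2 ⟨q, hq⟩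
  have hPq : ∀ q' ∈ P G p u, q' = q := fun q' hq' => card_le_one.1 hP1 q' hq' q hq
  obtain ⟨n, hn⟩ := exists_mr hS
  have huniq : ∀ m, Mr G p u m → m = n := by
    have h1 := BP.cnt_moved p hp (S G p u)
    have h2 : ((S G p u).filter fun m =>
        ((S G p u).filter fun v => p v < p m).card + 3 < (S G p u).card).card ≤ 1 := by omega
    intro m hm
    refine card_le_one.1 h2 m ?_ n ?_
    · rw [mem_filter]
      exact hm
    · rw [mem_filter]
      exact hn
  obtain ⟨z, hz1, hz2⟩ := third (τ u n) (if Mr G p q u then τ q u else κ q)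
  refine ⟨z, fun _ q' hq' => ?_⟩
  rw [hPq q' hq']
  refine ⟨?_, ?_, ?_⟩
  · intro m hm
    rw [huniq m hm]
    exact hz1
  · intro hqu m hm hum
    rw [if_pos hqu] at hz2
    by_cases hmu : m = u
    · rw [hmu]
      exact hz2
    · have hlt : p u < p m := lt_of_le_of_ne hum fun h => hmu (hp h).symm
      rw [t4 q m u n hm hqu hlt hn]
      exact hz1
  · intro hqu
    rw [if_neg hqu] at hz2
    exact hz2

end aux

theorem lab {V : Type} [Fintype V] (G : SimpleGraph V) [DecidableRel G.Adj] (p : V → ℚ)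
    (hd : ∀ v, G.degree v ≤ 6) (hp : Function.Injective p)
    (h0 : ∀ v, G.degree v = 6 → (S G p v).card ≤ 3 ∧ (P G p v).card ≤ 3)
    (h1 : ∀ u m, Mr G p u m → (P G p m).card ≤ 3) (h1' : ∀ u m, Ml G p u m → (S G p m).card ≤ 3)
    (h3 : ∀ u d g, Mr G p u g → Ml G p d g → False) :
    ∃ α : V → V → Fin 3, (∀ u v, G.Adj u v → α u v ≠ α v u) ∧
      (∀ u a, (univ.filter fun v => G.Adj u v ∧ α u v = a).card ≤ 2) ∧
      ∀ (a : Fin 3) (W : Finset V) (w : V), w ∈ W → 2 ≤ W.card →
        ∃ v ∈ W, v ≠ w ∧ (W.filter fun v' => G.Adj v v' ∧ α v v' = a).card ≤ 1 := by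
  classical
  have hnp : Function.Injective fun v => - p v := fun a b h => hp (neg_injective h)
  have h0n : ∀ v, G.degree v = 6 → (S G (fun v => - p v) v).card ≤ 3 ∧
      (P G (fun v => - p v) v).card ≤ 3 := by
    intro v hv
    rw [S_neg, P_neg]
    exact ⟨(h0 v hv).2, (h0 v hv).1⟩
  -- the labels of the halves which are not moved
  have hb1 : ∀ u, (univ.filter fun v => G.Adj u v ∧ p u < p v ∧ ¬ (Mr G p u v ∨ Ml G p u v)).card ≤ 3 := by
    intro u
    refine le_trans (card_le_card ?_) (BP.cnt_rest p hp (S G p u))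
    intro v hv
    rw [mem_filter] at hv ⊢
    have hvS : v ∈ S G p u := (mem_S G p u v).2 ⟨hv.2.1, hv.2.2.1⟩
    exact ⟨hvS, fun h => hv.2.2.2 (Or.inl ⟨hvS, h⟩)⟩
  have hb2 : ∀ u, (univ.filter fun v => G.Adj u v ∧ p v < p u ∧ ¬ (Mr G p u v ∨ Ml G p u v)).card ≤ 3 := by
    intro u
    refine le_trans (card_le_card ?_) (BP.cnt_rest (fun v => - p v) hnp (P G p u))
    intro v hv
    rw [mem_filter] at hv ⊢
    have hvP : v ∈ P G p u := (mem_P G p u v).2 ⟨hv.2.1, hv.2.2.1⟩
    refine ⟨hvP, fun h => hv.2.2.2 (Or.inr ⟨hvP, ?_⟩)⟩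
    have he : ((P G p u).filter fun w => - p w < - p v) = (P G p u).filter fun w => p v < p w := by
      apply filter_congr
      intro w _
      exact neg_lt_neg_iff
    rw [← he]
    exact h
  obtain ⟨γ, g1, g2, g3⟩ := BP.base G p hp (fun u v => Mr G p u v ∨ Ml G p u v) hb1 hb2
  obtain ⟨τ, t1, t2, t3, t4⟩ := right_tokens G p hd hp h0 γ
  obtain ⟨σ, s1, s2, s3, s4⟩ := right_tokens G (fun v => - p v) hd hnp h0n γ
  simp only [Mr_neg, S_neg, neg_le_neg_iff, neg_lt_neg_iff] at s1 s2 s3 s4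
  -- the light halves to the left
  choose π hπ using fun u => light hd hp h0 τ t4 (fun q => γ q u) u
  -- the light halves to the right
  have s4' : ∀ u m m' n, Mr G (fun v => - p v) u m → Mr G (fun v => - p v) u m' →
      - p m' < - p m → Mr G (fun v => - p v) m' n → σ u m = σ m' n := by
    intro u m m' n a1 a2 a3 a4
    exact s4 u m m' n ((Mr_neg G p u m).1 a1) ((Mr_neg G p u m').1 a2) (neg_lt_neg_iff.1 a3)
      ((Mr_neg G p m' n).1 a4)
  choose ρ hρ using fun u => light hd hnp h0n σ s4'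
    (fun q => if 4 ≤ (S G p q).card then π q else γ q u) u
  simp only [Mr_neg, S_neg, P_neg, neg_le_neg_iff] at hρ
  have nboth : ∀ u m n, Mr G p u m → ¬ Ml G p u n := by
    intro u m n h h'
    have a1 := mr_four h
    have a2 := ml_four h'
    have a3 := four_S hd h0 a1
    omega
  have hMrl : ∀ u v, p v < p u → ¬ Mr G p u v := fun u v h h' => lt_asymm h (mr_lt h').2
  have hMll : ∀ u v, p u < p v → ¬ Ml G p u v := fun u v h h' => lt_asymm h (ml_lt h').2
  obtain ⟨α, hα⟩ : ∃ α : V → V → Fin 3, α = fun u v =>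
      if Mr G p u v then τ u v else if Ml G p u v then σ u v else
      if 4 ≤ (S G p u).card ∧ p v < p u then π u else
      if 4 ≤ (P G p u).card ∧ p u < p v then ρ u else γ u v := ⟨_, rfl⟩
  have A1 : ∀ u v, Mr G p u v → α u v = τ u v := by
    intro u v h
    rw [hα]
    simp only [if_pos h]
  have A2 : ∀ u v, Ml G p u v → α u v = σ u v := by
    intro u v h
    have h' : ¬ Mr G p u v := fun h' => nboth u v v h' h
    rw [hα]
    simp only [if_pos h, if_neg h']
  have A3 : ∀ u v, 4 ≤ (S G p u).card → p v < p u → α u v = π u := by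
    intro u v h h'
    have a1 : ¬ Mr G p u v := hMrl u v h'
    have a2 : ¬ Ml G p u v := fun a => by
      have a3 := four_S hd h0 h
      have a4 := ml_four a
      omega
    rw [hα]
    simp only [if_neg a1, if_neg a2, if_pos (show 4 ≤ (S G p u).card ∧ p v < p u from ⟨h, h'⟩)]
  have A4 : ∀ u v, 4 ≤ (P G p u).card → p u < p v → α u v = ρ u := by
    intro u v h h'
    have a3 := four_P hd h0 h
    have a1 : ¬ Mr G p u v := fun a => by
      have a4 := mr_four a
      omega
    have a2 : ¬ Ml G p u v := hMll u v h'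
    have a5 : ¬ (4 ≤ (S G p u).card ∧ p v < p u) := fun a => lt_asymm a.2 h'
    rw [hα]
    simp only [if_neg a1, if_neg a2, if_neg a5,
      if_pos (show 4 ≤ (P G p u).card ∧ p u < p v from ⟨h, h'⟩)]
  have A5 : ∀ u v, ¬ Mr G p u v → ¬ Ml G p u v → ¬ (4 ≤ (S G p u).card ∧ p v < p u) →
      ¬ (4 ≤ (P G p u).card ∧ p u < p v) → α u v = γ u v := by
    intro u v a1 a2 a3 a4
    rw [hα]
    simp only [if_neg a1, if_neg a2, if_neg a3, if_neg a4]
  -- right and left values
  have R : ∀ u v, G.Adj u v → p u < p v → (Mr G p u v ∧ α u v = τ u v) ∨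
      (4 ≤ (P G p u).card ∧ α u v = ρ u) ∨
      (¬ Mr G p u v ∧ (P G p u).card ≤ 3 ∧ α u v = γ u v) := by
    intro u v _ huv
    by_cases a1 : Mr G p u v
    · exact Or.inl ⟨a1, A1 u v a1⟩
    · by_cases a2 : 4 ≤ (P G p u).card
      · exact Or.inr (Or.inl ⟨a2, A4 u v a2 huv⟩)
      · refine Or.inr (Or.inr ⟨a1, by omega, A5 u v a1 (hMll u v huv) ?_ ?_⟩)
        · exact fun a => lt_asymm a.2 huv
        · exact fun a => a2 a.1
  have L : ∀ u v, G.Adj u v → p v < p u → (Ml G p u v ∧ α u v = σ u v) ∨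
      (4 ≤ (S G p u).card ∧ α u v = π u) ∨
      (¬ Ml G p u v ∧ (S G p u).card ≤ 3 ∧ α u v = γ u v) := by
    intro u v _ huv
    by_cases a1 : Ml G p u v
    · exact Or.inl ⟨a1, A2 u v a1⟩
    · by_cases a2 : 4 ≤ (S G p u).card
      · exact Or.inr (Or.inl ⟨a2, A3 u v a2 huv⟩)
      · refine Or.inr (Or.inr ⟨a1, by omega, A5 u v (hMrl u v huv) a1 ?_ ?_⟩)
        · exact fun a => a2 a.1
        · exact fun a => lt_asymm a.2 huv
  have hmate : ∀ u v, G.Adj u v → p u < p v → α u v ≠ α v u := by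
    intro u v huv hlt
    have hvS : v ∈ S G p u := (mem_S G p u v).2 ⟨huv, hlt⟩
    have huP : u ∈ P G p v := (mem_P G p v u).2 ⟨huv.symm, hlt⟩
    rcases R u v huv hlt with ⟨a1, a2⟩ | ⟨a1, a2⟩ | ⟨a1, a2, a3⟩
    · rcases L v u huv.symm hlt with ⟨b1, b2⟩ | ⟨b1, b2⟩ | ⟨b1, b2, b3⟩
      · exfalso
        have c1 := h1 u v a1
        have c2 := ml_four b1
        omega
      · rw [a2, b2]
        exact ((hπ v b1 u huP).2.1 a1 v a1 le_rfl).symm
      · rw [a2, b3]
        exact t2 u v v a1 a1 le_rfl b2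
    · rcases L v u huv.symm hlt with ⟨b1, b2⟩ | ⟨b1, b2⟩ | ⟨b1, b2, b3⟩
      · rw [a2, b2]
        exact (hρ u a1 v hvS).2.1 b1 u b1 le_rfl
      · rw [a2, b2]
        have c1 : ¬ Ml G p v u := fun c => by
          have c2 := ml_four c
          have c3 := four_S hd h0 b1
          omega
        have c2 := (hρ u a1 v hvS).2.2 c1
        rw [if_pos b1] at c2
        exact c2
      · rw [a2, b3]
        have c2 := (hρ u a1 v hvS).2.2 b1
        rw [if_neg (by omega)] at c2
        exact c2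
    · rcases L v u huv.symm hlt with ⟨b1, b2⟩ | ⟨b1, b2⟩ | ⟨b1, b2, b3⟩
      · rw [a3, b2]
        exact (s2 v u u b1 b1 le_rfl a2).symm
      · rw [a3, b2]
        exact ((hπ v b1 u huP).2.2 a1).symm
      · rw [a3, b3]
        exact g1 u v huv
  have hA : ∀ u v w, G.Adj u v → G.Adj u w → ((p u < p v ∧ ¬ Mr G p u v) ∨ Ml G p u v) →
      ((p u < p w ∧ ¬ Mr G p u w) ∨ Ml G p u w) → α u v = α u w → v = w := by
    rintro u v w hv hw (⟨a1, a2⟩ | a) (⟨b1, b2⟩ | b) he
    · by_cases c : 4 ≤ (P G p u).card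
      · have c1 := four_P hd h0 c
        have c2 : (S G p u).card ≤ 1 := by omega
        exact card_le_one.1 c2 v ((mem_S G p u v).2 ⟨hv, a1⟩) w ((mem_S G p u w).2 ⟨hw, b1⟩)
      · rw [A5 u v a2 (hMll u v a1) (fun h => lt_asymm h.2 a1) (fun h => c h.1),
          A5 u w b2 (hMll u w b1) (fun h => lt_asymm h.2 b1) (fun h => c h.1)] at he
        exact g2 u v w hv hw a1 b1 (fun h => h.elim a2 (hMll u v a1))
          (fun h => h.elim b2 (hMll u w b1)) he
    · exfalso
      have c := ml_four b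
      rw [A4 u v c a1, A2 u w b] at he
      exact (hρ u c v ((mem_S G p u v).2 ⟨hv, a1⟩)).1 w b he
    · exfalso
      have c := ml_four a
      rw [A4 u w c b1, A2 u v a] at he
      exact (hρ u c w ((mem_S G p u w).2 ⟨hw, b1⟩)).1 v a he.symm
    · rw [A2 u v a, A2 u w b] at he
      exact s1 u v w a b he
  have hB : ∀ u v w, G.Adj u v → G.Adj u w → ((p v < p u ∧ ¬ Ml G p u v) ∨ Mr G p u v) →
      ((p w < p u ∧ ¬ Ml G p u w) ∨ Mr G p u w) → α u v = α u w → v = w := by
    rintro u v w hv hw (⟨a1, a2⟩ | a) (⟨b1, b2⟩ | b) he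
    · by_cases c : 4 ≤ (S G p u).card
      · have c1 := four_S hd h0 c
        have c2 : (P G p u).card ≤ 1 := by omega
        exact card_le_one.1 c2 v ((mem_P G p u v).2 ⟨hv, a1⟩) w ((mem_P G p u w).2 ⟨hw, b1⟩)
      · rw [A5 u v (hMrl u v a1) a2 (fun h => c h.1) (fun h => lt_asymm h.2 a1),
          A5 u w (hMrl u w b1) b2 (fun h => c h.1) (fun h => lt_asymm h.2 b1)] at he
        exact g3 u v w hv hw a1 b1 (fun h => h.elim (hMrl u v a1) a2)
          (fun h => h.elim (hMrl u w b1) b2) he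
    · exfalso
      have c := mr_four b
      rw [A3 u v c a1, A1 u w b] at he
      exact (hπ u c v ((mem_P G p u v).2 ⟨hv, a1⟩)).1 w b he
    · exfalso
      have c := mr_four a
      rw [A3 u w c b1, A1 u v a] at he
      exact (hπ u c w ((mem_P G p u w).2 ⟨hw, b1⟩)).1 v a he.symm
    · rw [A1 u v a, A1 u w b] at he
      exact t1 u v w a b he
  have hc1 : ∀ u m m', Mr G p u m → Mr G p u m' → p m' ≤ p m → α m' u ≠ α u m := by
    intro u m m' hm hm' hle
    rw [A1 u m hm]
    have hum := mr_lt hm'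
    have huP : u ∈ P G p m' := (mem_P G p m' u).2 ⟨hum.1.symm, hum.2⟩
    rcases L m' u hum.1.symm hum.2 with ⟨b1, b2⟩ | ⟨b1, b2⟩ | ⟨b1, b2, b3⟩
    · exfalso
      have c1 := h1 u m' hm'
      have c2 := ml_four b1
      omega
    · rw [b2]
      exact (hπ m' b1 u huP).2.1 hm' m hm hle
    · rw [b3]
      exact (t2 u m m' hm hm' hle b2).symm
  have hc2 : ∀ u m m', Ml G p u m → Ml G p u m' → p m ≤ p m' → α m' u ≠ α u m := by
    intro u m m' hm hm' hle
    rw [A2 u m hm]
    have hum := ml_lt hm'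
    have huS : u ∈ S G p m' := (mem_S G p m' u).2 ⟨hum.1.symm, hum.2⟩
    rcases R m' u hum.1.symm hum.2 with ⟨b1, b2⟩ | ⟨b1, b2⟩ | ⟨b1, b2, b3⟩
    · exfalso
      have c1 := h1' u m' hm'
      have c2 := mr_four b1
      omega
    · rw [b2]
      exact (hρ m' b1 u huS).2.1 hm' m hm hle
    · rw [b3]
      exact (s2 u m m' hm hm' hle b2).symm
  have hE1 : ∀ u m m', Mr G p u m → Mr G p m m' → α u m ≠ α m m' := by
    intro u m m' h h'
    rw [A1 u m h, A1 m m' h']
    exact t3 u m m' h h'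
  have hE2 : ∀ u m m', Ml G p u m → Ml G p m m' → α u m ≠ α m m' := by
    intro u m m' h h'
    rw [A2 u m h, A2 m m' h']
    exact s3 u m m' h h'
  refine ⟨α, ?_, ?_, ?_⟩
  · intro u v huv
    rcases lt_or_gt_of_ne fun h => huv.ne (hp h) with h | h
    · exact hmate u v huv h
    · exact (hmate v u huv.symm h).symm
  · intro u a
    have hsub : (univ.filter fun v => G.Adj u v ∧ α u v = a) ⊆
        (univ.filter fun v => (G.Adj u v ∧ ((p u < p v ∧ ¬ Mr G p u v) ∨ Ml G p u v)) ∧ α u v = a) ∪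
        (univ.filter fun v => (G.Adj u v ∧ ((p v < p u ∧ ¬ Ml G p u v) ∨ Mr G p u v)) ∧ α u v = a) := by
      intro v hv
      rw [mem_filter] at hv
      rw [mem_union, mem_filter, mem_filter]
      rcases lt_or_gt_of_ne fun h => hv.2.1.ne (hp h) with h | h
      · by_cases hm : Mr G p u v
        · exact Or.inr ⟨hv.1, ⟨hv.2.1, Or.inr hm⟩, hv.2.2⟩
        · exact Or.inl ⟨hv.1, ⟨hv.2.1, Or.inl ⟨h, hm⟩⟩, hv.2.2⟩
      · by_cases hm : Ml G p u v
        · exact Or.inl ⟨hv.1, ⟨hv.2.1, Or.inr hm⟩, hv.2.2⟩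
        · exact Or.inr ⟨hv.1, ⟨hv.2.1, Or.inl ⟨h, hm⟩⟩, hv.2.2⟩
    refine (card_le_card hsub).trans ((card_union_le _ _).trans ?_)
    have hA' : (univ.filter fun v => (G.Adj u v ∧ ((p u < p v ∧ ¬ Mr G p u v) ∨ Ml G p u v)) ∧
        α u v = a).card ≤ 1 := by
      rw [card_le_one]
      intro v hv w hw
      rw [mem_filter] at hv hw
      exact hA u v w hv.2.1.1 hw.2.1.1 hv.2.1.2 hw.2.1.2 (hv.2.2.trans hw.2.2.symm)
    have hB' : (univ.filter fun v => (G.Adj u v ∧ ((p v < p u ∧ ¬ Ml G p u v) ∨ Mr G p u v)) ∧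
        α u v = a).card ≤ 1 := by
      rw [card_le_one]
      intro v hv w hw
      rw [mem_filter] at hv hw
      exact hB u v w hv.2.1.1 hw.2.1.1 hv.2.1.2 hw.2.1.2 (hv.2.2.trans hw.2.2.symm)
    omega
  · intro a W w hw hW
    exact win G p hd hp α h1 h1' h3 hA hB hc1 hc2 hE1 hE2 a W w hw hW

end Pool.Agent.Z6
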