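import Pool.Agent.Z6.Defs

/-!
MP_dadc3d_co, Z6. Moving one vertex.

`move_right`: `u` is moved to a point `x` just right of `t` (`exists_right`), `p' = Function.update p u x`
(use `classical`). `x` is not in the range of `p`, so `p'` is injective. Let
`Q = (S u).filter (p v < p t)`, so `Q.card + 3 < (S u).card` by `Mr`, and `(S u).card ≤ 5` (degree of
`u` is at most 5: otherwise `(S u).card ≤ 3` by `h0`), so `Q.card ≤ 1`, and `(P u).card ≤ 5 - (S u).card`
by `card_add_le`. Then
* `w ∈ Q` or `w = t`: `S' w = insert u (S w)` (new), `P' w = (P w).erase u` (`u` was in it);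
* all other `w ≠ u`: `S' w = S w`, `P' w = P w`;
* `S' u = (S u)` minus `Q` and `t`; `P' u = (P u)` plus `Q` and `t` (all disjoint).
So `phi' w = phi w` for `w` not in `Q ∪ {t, u}`, `phi' w ≤ phi w + 3` for `w` in `Q`,
`phi' u + 2 * (Q.card + 1) ≤ phi u` (because `(P' u).card ≤ (5 - (S u).card) + Q.card + 1 ≤ 2`,
`(S' u).card = (S u).card - Q.card - 1`). Sum over all vertices:
`Phi' + 2 * (Q.card + 1) + phi t ≤ Phi + 3 * Q.card + phi' t`, and `Q.card ≤ 1`.

`move_median`: `x` is moved just right of its nearest right neighbour `t` (the member of `S x` with the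
smallest `p`): `(S' x).card = (S x).card - 1`, `(P' x).card = (P x).card + 1 ≤ 3` (because
`(P x).card ≤ 6 - (S x).card ≤ 2`), so `phi' x + 3 = phi x` (weight 3, `(S x).card ≥ 4`); `t` has
weight 2 (hypothesis), `(S' t).card = (S t).card + 1`, `(P' t).card ≤ (P t).card`, so
`phi' t ≤ phi t + 2`; nothing else changes. The total goes down by at least 1.

It is convenient to prove first a lemma for `p' = Function.update p u x` with `x` just right of `t`,
`p u < p t`: for `w ≠ u` with `G.Adj u w`, `p u < p w ≤ p t`: `S' w = insert u (S w)`,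
`P' w = (P w).erase u`; for all other `w ≠ u` no change; `S' u = (S u).filter (p t < p w)`;
`P' u = P u ∪ (S u).filter (p w ≤ p t)`.
-/

set_option autoImplicit false

namespace Pool.Agent.Z6

open Finset

variable {V : Type} [Fintype V] (G : SimpleGraph V) [DecidableRel G.Adj] (p : V → ℚ)

section upd

variable {G p}
variable [DecidableEq V] {u t : V} {x : ℚ}

omit [Fintype V] in
theorem upd_inj (hp : Function.Injective p) (hx1 : p t < x) (hx2 : ∀ v, p t < p v → x < p v) :
    Function.Injective (Function.update p u x) := by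
  have hne : ∀ w, p w ≠ x := fun w h => by
    rcases le_or_gt (p w) (p t) with h' | h'
    · linarith
    · have := hx2 w h'
      linarith
  intro v w h
  by_cases hv : v = u
  · by_cases hw : w = u
    · rw [hv, hw]
    · rw [hv, Function.update_self, Function.update_of_ne hw] at h
      exact absurd h.symm (hne w)
  · by_cases hw : w = u
    · rw [hw, Function.update_self, Function.update_of_ne hv] at h
      exact absurd h (hne v)
    · rw [Function.update_of_ne hv, Function.update_of_ne hw] at h
      exact hp h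

theorem mem_S_upd (hx1 : p t < x) (hx2 : ∀ v, p t < p v → x < p v) {w : V} (hw : w ≠ u) (v : V) :
    v ∈ S G (Function.update p u x) w ↔
      (v ≠ u ∧ v ∈ S G p w) ∨ (v = u ∧ G.Adj w u ∧ p w ≤ p t) := by
  rw [mem_S, Function.update_of_ne hw]
  by_cases hv : v = u
  · rw [hv, Function.update_self]
    constructor
    · rintro ⟨h1, h2⟩
      refine Or.inr ⟨rfl, h1, ?_⟩
      by_contra hcon
      rw [not_le] at hcon
      exact absurd (hx2 w hcon) (not_lt.2 h2.le)
    · rintro (⟨h1, -⟩ | ⟨-, h1, h2⟩)
      · exact absurd rfl h1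
      · exact ⟨h1, h2.trans_lt hx1⟩
  · rw [Function.update_of_ne hv, mem_S]
    constructor
    · exact fun h => Or.inl ⟨hv, h⟩
    · rintro (⟨-, h⟩ | ⟨h, -⟩)
      · exact h
      · exact absurd h hv

theorem mem_P_upd (hx1 : p t < x) (hx2 : ∀ v, p t < p v → x < p v) {w : V} (hw : w ≠ u) (v : V) :
    v ∈ P G (Function.update p u x) w ↔
      (v ≠ u ∧ v ∈ P G p w) ∨ (v = u ∧ G.Adj w u ∧ p t < p w) := by
  rw [mem_P, Function.update_of_ne hw]
  by_cases hv : v = u
  · rw [hv, Function.update_self]
    constructor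
    · rintro ⟨h1, h2⟩
      exact Or.inr ⟨rfl, h1, hx1.trans h2⟩
    · rintro (⟨h1, -⟩ | ⟨-, h1, h2⟩)
      · exact absurd rfl h1
      · exact ⟨h1, hx2 w h2⟩
  · rw [Function.update_of_ne hv, mem_P]
    constructor
    · exact fun h => Or.inl ⟨hv, h⟩
    · rintro (⟨-, h⟩ | ⟨h, -⟩)
      · exact h
      · exact absurd h hv

theorem upd_in (hx1 : p t < x) (hx2 : ∀ v, p t < p v → x < p v) {w : V} (hw : w ≠ u)
    (h : G.Adj u w ∧ p u < p w ∧ p w ≤ p t) :
    (S G (Function.update p u x) w).card = (S G p w).card + 1 ∧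
      (P G (Function.update p u x) w).card + 1 = (P G p w).card := by
  obtain ⟨h1, h2, h3⟩ := h
  constructor
  · have e : S G (Function.update p u x) w = insert u (S G p w) := by
      ext v
      rw [mem_insert, mem_S_upd hx1 hx2 hw]
      constructor
      · rintro (⟨-, h⟩ | ⟨h, -⟩)
        · exact Or.inr h
        · exact Or.inl h
      · rintro (h | h)
        · exact Or.inr ⟨h, h1.symm, h3⟩
        · by_cases hv : v = u
          · exact Or.inr ⟨hv, h1.symm, h3⟩
          · exact Or.inl ⟨hv, h⟩
    rw [e, card_insert_of_notMem]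
    rw [mem_S]
    exact fun h => lt_asymm h.2 h2
  · have e : P G p w = insert u (P G (Function.update p u x) w) := by
      ext v
      rw [mem_insert, mem_P_upd hx1 hx2 hw]
      constructor
      · intro h
        by_cases hv : v = u
        · exact Or.inl hv
        · exact Or.inr (Or.inl ⟨hv, h⟩)
      · rintro (h | ⟨-, h⟩ | ⟨h, -⟩)
        · rw [h, mem_P]
          exact ⟨h1.symm, h2⟩
        · exact h
        · rw [h, mem_P]
          exact ⟨h1.symm, h2⟩
    rw [e, card_insert_of_notMem]
    rw [mem_P_upd hx1 hx2 hw]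
    rintro (⟨h, -⟩ | ⟨-, -, h⟩)
    · exact h rfl
    · exact absurd h (not_lt.2 h3)

theorem upd_out (hp : Function.Injective p) (hut : p u < p t) (hx1 : p t < x)
    (hx2 : ∀ v, p t < p v → x < p v) {w : V} (hw : w ≠ u)
    (h : ¬ (G.Adj u w ∧ p u < p w ∧ p w ≤ p t)) :
    S G (Function.update p u x) w = S G p w ∧ P G (Function.update p u x) w = P G p w := by
  have hne : p w ≠ p u := fun h' => hw (hp h')
  constructor
  · ext v
    rw [mem_S_upd hx1 hx2 hw]
    by_cases hv : v = u
    · rw [hv, mem_S]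
      constructor
      · rintro (⟨h1, -⟩ | ⟨-, h1, h2⟩)
        · exact absurd rfl h1
        · refine ⟨h1, ?_⟩
          by_contra hcon
          exact h ⟨h1.symm, lt_of_le_of_ne (not_lt.1 hcon) (Ne.symm hne), h2⟩
      · rintro ⟨h1, h2⟩
        exact Or.inr ⟨rfl, h1, (h2.trans hut).le⟩
    · constructor
      · rintro (⟨-, h⟩ | ⟨h, -⟩)
        · exact h
        · exact absurd h hv
      · exact fun h => Or.inl ⟨hv, h⟩
  · ext v
    rw [mem_P_upd hx1 hx2 hw]
    by_cases hv : v = u
    · rw [hv, mem_P]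
      constructor
      · rintro (⟨h1, -⟩ | ⟨-, h1, h2⟩)
        · exact absurd rfl h1
        · exact ⟨h1, hut.trans h2⟩
      · rintro ⟨h1, h2⟩
        refine Or.inr ⟨rfl, h1, ?_⟩
        by_contra hcon
        exact h ⟨h1.symm, h2, not_lt.1 hcon⟩
    · constructor
      · rintro (⟨-, h⟩ | ⟨h, -⟩)
        · exact h
        · exact absurd h hv
      · exact fun h => Or.inl ⟨hv, h⟩

theorem upd_self (hp : Function.Injective p) (hut : p u < p t) (hx1 : p t < x) (hx2 : ∀ v, p t < p v → x < p v) :
    (S G (Function.update p u x) u).card + ((S G p u).filter fun v => p v ≤ p t).card =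
      (S G p u).card ∧
    (P G (Function.update p u x) u).card =
      (P G p u).card + ((S G p u).filter fun v => p v ≤ p t).card := by
  have hS : ∀ v, v ∈ S G (Function.update p u x) u ↔ G.Adj u v ∧ p t < p v := by
    intro v
    rw [mem_S, Function.update_self]
    constructor
    · rintro ⟨h1, h2⟩
      rw [Function.update_of_ne h1.ne.symm] at h2
      exact ⟨h1, hx1.trans h2⟩
    · rintro ⟨h1, h2⟩
      rw [Function.update_of_ne h1.ne.symm]
      exact ⟨h1, hx2 v h2⟩
  have hP : ∀ v, v ∈ P G (Function.update p u x) u ↔ G.Adj u v ∧ p v ≤ p t := by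
    intro v
    rw [mem_P, Function.update_self]
    constructor
    · rintro ⟨h1, h2⟩
      rw [Function.update_of_ne h1.ne.symm] at h2
      refine ⟨h1, ?_⟩
      by_contra hcon
      rw [not_le] at hcon
      exact absurd (hx2 v hcon) (not_lt.2 h2.le)
    · rintro ⟨h1, h2⟩
      rw [Function.update_of_ne h1.ne.symm]
      exact ⟨h1, h2.trans_lt hx1⟩
  constructor
  · rw [← card_union_of_disjoint]
    · refine congrArg card ?_
      ext v
      rw [mem_union, hS, mem_filter, mem_S]
      constructor
      · rintro (⟨h1, h2⟩ | h)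
        · exact ⟨h1, hut.trans h2⟩
        · exact h.1
      · rintro h
        rcases le_or_gt (p v) (p t) with h' | h'
        · exact Or.inr ⟨h, h'⟩
        · exact Or.inl ⟨h.1, h'⟩
    · rw [disjoint_left]
      intro v hv hv'
      rw [hS] at hv
      rw [mem_filter] at hv'
      exact absurd hv.2 (not_lt.2 hv'.2)
  · rw [← card_union_of_disjoint]
    · refine congrArg card ?_
      ext v
      rw [mem_union, hP, mem_filter, mem_S, mem_P]
      constructor
      · rintro ⟨h1, h2⟩
        rcases lt_or_ge (p v) (p u) with h' | h'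
        · exact Or.inl ⟨h1, h'⟩
        · rcases h'.eq_or_lt with h'' | h''
          · exact absurd (hp h'') h1.ne
          · exact Or.inr ⟨⟨h1, h''⟩, h2⟩
      · rintro (⟨h1, h2⟩ | ⟨⟨h1, h2⟩, h3⟩)
        · exact ⟨h1, (h2.trans hut).le⟩
        · exact ⟨h1, h3⟩
    · rw [disjoint_left]
      intro v hv hv'
      rw [mem_P] at hv
      rw [mem_filter, mem_S] at hv'
      exact lt_asymm hv.2 hv'.1.2

end upd

/-- one more on the right, one less on the left -/
theorem phi_step {p' : V → ℚ} {w : V} (h1 : (S G p' w).card = (S G p w).card + 1)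
    (h2 : (P G p' w).card + 1 = (P G p w).card) :
    phi G p' w ≤ phi G p w + 3 ∧ (G.degree w ≠ 6 → phi G p' w ≤ phi G p w + 2) := by
  unfold phi
  constructor
  · split_ifs <;> omega
  · intro h
    rw [if_neg h]
    omega

theorem move_right (hd : ∀ v, G.degree v ≤ 6) (hp : Function.Injective p)
    (h0 : ∀ v, G.degree v = 6 → (S G p v).card ≤ 3 ∧ (P G p v).card ≤ 3)
    (u t : V) (h : Mr G p u t) :
    ∃ p' : V → ℚ, Function.Injective p' ∧ (S G p' t).card = (S G p t).card + 1 ∧
      (P G p' t).card + 1 = (P G p t).card ∧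
      Phi G p' + phi G p t + 1 ≤ Phi G p + phi G p' t := by
  classical
  obtain ⟨htS, hQ3⟩ := h
  have htS' := (mem_S G p u t).1 htS
  obtain ⟨hadj, hut⟩ := htS'
  have htu : t ≠ u := hadj.ne.symm
  obtain ⟨x, hx1, hx2⟩ := exists_right p t
  obtain ⟨Q, hQ⟩ : ∃ Q : Finset V, Q = (S G p u).filter fun v => p v < p t := ⟨_, rfl⟩
  rw [← hQ] at hQ3
  have hmQ : ∀ v, v ∈ Q ↔ G.Adj u v ∧ p u < p v ∧ p v < p t := fun v => by
    rw [hQ, mem_filter, mem_S, and_assoc]
  have hR : ((S G p u).filter fun v => p v ≤ p t) = insert t Q := by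
    ext v
    rw [mem_filter, mem_S, mem_insert, hmQ]
    constructor
    · rintro ⟨⟨h1, h2⟩, h3⟩
      rcases h3.eq_or_lt with h4 | h4
      · exact Or.inl (hp h4)
      · exact Or.inr ⟨h1, h2, h4⟩
    · rintro (h1 | ⟨h1, h2, h3⟩)
      · rw [h1]
        exact ⟨⟨hadj, hut⟩, le_rfl⟩
      · exact ⟨⟨h1, h2⟩, h3.le⟩
  have htQ : t ∉ Q := fun hh => lt_irrefl _ ((hmQ t).1 hh).2.2
  have huQ : u ∉ Q := fun hh => lt_irrefl _ ((hmQ u).1 hh).2.1
  obtain ⟨s1, s2⟩ := upd_self (G := G) hp hut hx1 hx2
  rw [hR, card_insert_of_notMem htQ] at s1 s2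
  obtain ⟨t1, t2⟩ := upd_in (G := G) hx1 hx2 htu ⟨hadj, hut, le_rfl⟩
  have hcard := card_add_le G p u
  have hd6 : G.degree u ≠ 6 := fun h6 => by
    have := (h0 u h6).1
    omega
  have hdu := hd u
  have hpu : phi G (Function.update p u x) u + 2 * (Q.card + 1) ≤ phi G p u := by
    unfold phi
    rw [if_neg hd6]
    omega
  refine ⟨Function.update p u x, upd_inj hp hx1 hx2, t1, t2, ?_⟩
  have hpt : ∀ w, phi G (Function.update p u x) w + (if w = u then 2 * (Q.card + 1) else 0) +
      (if w = t then phi G p t else 0) ≤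
      phi G p w + (if w ∈ Q then 3 else 0) +
        (if w = t then phi G (Function.update p u x) t else 0) := by
    intro w
    by_cases hwu : w = u
    · rw [hwu, if_pos rfl, if_neg (Ne.symm htu), if_neg huQ, if_neg (Ne.symm htu)]
      omega
    · by_cases hwt : w = t
      · rw [hwt, if_neg htu, if_pos rfl, if_neg htQ, if_pos rfl]
        omega
      · by_cases hwQ : w ∈ Q
        · rw [if_neg hwu, if_neg hwt, if_pos hwQ, if_neg hwt]
          have h1 := (hmQ w).1 hwQ
          obtain ⟨q1, q2⟩ := upd_in (G := G) hx1 hx2 hwu ⟨h1.1, h1.2.1, h1.2.2.le⟩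
          have := (phi_step G p q1 q2).1
          omega
        · rw [if_neg hwu, if_neg hwt, if_neg hwQ, if_neg hwt]
          have hn : ¬ (G.Adj u w ∧ p u < p w ∧ p w ≤ p t) := by
            rintro ⟨h1, h2, h3⟩
            rcases h3.eq_or_lt with h4 | h4
            · exact hwt (hp h4)
            · exact hwQ ((hmQ w).2 ⟨h1, h2, h4⟩)
          obtain ⟨e1, e2⟩ := upd_out (G := G) hp hut hx1 hx2 hwu hn
          have e3 : phi G (Function.update p u x) w = phi G p w := by
            unfold phi
            rw [e1, e2]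
          omega
  have hsum := sum_le_sum fun w (_ : w ∈ (univ : Finset V)) => hpt w
  rw [sum_add_distrib, sum_add_distrib, sum_add_distrib, sum_add_distrib, sum_ite_eq',
    sum_ite_eq', sum_ite_eq', if_pos (mem_univ _), if_pos (mem_univ _), if_pos (mem_univ _),
    sum_ite_mem, univ_inter, sum_const, smul_eq_mul] at hsum
  unfold Phi
  omega

theorem move_median (hd : ∀ v, G.degree v ≤ 6) (hp : Function.Injective p) (x : V)
    (hx : G.degree x = 6) (hI : ∀ v, G.Adj x v → G.degree v ≠ 6) (h : 4 ≤ (S G p x).card) :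
    ∃ p' : V → ℚ, Function.Injective p' ∧ Phi G p' < Phi G p := by
  classical
  have hne : (S G p x).Nonempty := card_pos.1 (by omega)
  obtain ⟨t, htS, htmin⟩ := exists_min_image _ p hne
  obtain ⟨hadj, hut⟩ := (mem_S G p x t).1 htS
  have htu : t ≠ x := hadj.ne.symm
  obtain ⟨y, hy1, hy2⟩ := exists_right p t
  have hR : ((S G p x).filter fun v => p v ≤ p t) = {t} := by
    ext v
    rw [mem_filter, mem_singleton]
    constructor
    · rintro ⟨h1, h2⟩
      exact hp (le_antisymm h2 (htmin v h1))
    · intro h1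
      rw [h1]
      exact ⟨htS, le_rfl⟩
  obtain ⟨s1, s2⟩ := upd_self (G := G) hp hut hy1 hy2
  rw [hR, card_singleton] at s1 s2
  obtain ⟨t1, t2⟩ := upd_in (G := G) hy1 hy2 htu ⟨hadj, hut, le_rfl⟩
  have hcard := card_add_le G p x
  have hpu : phi G (Function.update p x y) x + 3 ≤ phi G p x := by
    unfold phi
    rw [if_pos hx]
    omega
  refine ⟨Function.update p x y, upd_inj hp hy1 hy2, ?_⟩
  have hpt : ∀ w, phi G (Function.update p x y) w + (if w = x then 3 else 0) ≤
      phi G p w + (if w = t then 2 else 0) := by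
    intro w
    by_cases hwu : w = x
    · rw [hwu, if_pos rfl, if_neg (Ne.symm htu)]
      omega
    · by_cases hwt : w = t
      · rw [hwt, if_neg htu, if_pos rfl]
        have := (phi_step G p t1 t2).2 (hI t hadj)
        omega
      · rw [if_neg hwu, if_neg hwt]
        have hn : ¬ (G.Adj x w ∧ p x < p w ∧ p w ≤ p t) := by
          rintro ⟨h1, h2, h3⟩
          exact hwt (hp (le_antisymm h3 (htmin w ((mem_S G p x w).2 ⟨h1, h2⟩))))
        obtain ⟨e1, e2⟩ := upd_out (G := G) hp hut hy1 hy2 hwu hn
        have e3 : phi G (Function.update p x y) w = phi G p w := by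
          unfold phi
          rw [e1, e2]
        omega
  have hsum := sum_le_sum fun w (_ : w ∈ (univ : Finset V)) => hpt w
  rw [sum_add_distrib, sum_add_distrib, sum_ite_eq', sum_ite_eq', if_pos (mem_univ _),
    if_pos (mem_univ _)] at hsum
  unfold Phi
  omega

end Pool.Agent.Z6
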