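import Pool.Agent.Z6.Defs

/-!
MP_dadc3d_co, Z6. Choice of the labels of the half-edges to moved neighbours (abstract form).

`c`: let `F1 c v = c (m1 v)` if `up1 v` and `up1 (m1 v)`, otherwise `g1 v`;
`F2 c v`: if there is `u` with `up2 u`, `m1 u = v`, `up1 v` (unique by `hu`), then for this `u`:
`c (m2 u)` if `up1 (m2 u)`, otherwise `g2 u`; if there is no such `u`: `0`. Both depend only on the values
of `c` at points `w` with `p v < p w`. So there is `c` with `c v ≠ F1 c v`, `c v ≠ F2 c v` for all `v`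
(well-founded recursion from right to left).
`a`, `b` for `up2 u`: if `up1 (m1 u)` let `b u = c (m1 u)` and `a u ≠ b u` anything; then `b u` is
different from `g2 u` (if not `up1 (m2 u)`) or `c (m2 u)` (if `up1 (m2 u)`) by `F2` at `m1 u`. If not
`up1 (m1 u)`: `b u` different from `g1 u` and from (`c (m2 u)` if `up1 (m2 u)`, otherwise `g2 u`), then
`a u` different from `b u`, `g1 u`.
-/

set_option autoImplicit false

namespace Pool.Agent.Z6

open Finset

private theorem exists_third (y z : Fin 3) : ∃ x : Fin 3, x ≠ y ∧ x ≠ z := by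
  revert y z
  decide

/-- greedy choice from right to left -/
private theorem greedy_fix {V : Type} [Fintype V] (p : V → ℚ) (G : (V → Fin 3) → V → Fin 3)
    (hG : ∀ c c' : V → Fin 3, ∀ v, (∀ w, p v < p w → c w = c' w) → G c v = G c' v) :
    ∃ c : V → Fin 3, ∀ v, c v = G c v := by
  classical
  have : IsTrans V (fun w v : V => p v < p w) := ⟨fun _ _ _ h1 h2 => lt_trans h2 h1⟩
  have : Std.Irrefl (fun w v : V => p v < p w) := ⟨fun _ h => lt_irrefl _ h⟩
  have wf : WellFounded (fun w v : V => p v < p w) := Finite.wellFounded_of_trans_of_irrefl _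
  refine ⟨wf.fix (fun v rec => G (fun w => if h : p v < p w then rec w h else 0) v), fun v => ?_⟩
  rw [wf.fix_eq]
  refine hG _ _ v fun w hw => ?_
  rw [dif_pos hw]

theorem tok {V : Type} [Fintype V] (p : V → ℚ) (hp : Function.Injective p) (up1 up2 : V → Prop)
    (m1 m2 : V → V) (g1 g2 : V → Fin 3) (h1 : ∀ v, up1 v → p v < p (m1 v))
    (h2 : ∀ v, up2 v → p v < p (m1 v) ∧ p (m1 v) < p (m2 v))
    (hu : ∀ u u', up2 u → up2 u' → m1 u = m1 u' → up1 (m1 u) → u = u') :
    ∃ c a b : V → Fin 3,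
      (∀ v, up1 v → (¬ up1 (m1 v) → c v ≠ g1 v) ∧ (up1 (m1 v) → c v ≠ c (m1 v))) ∧
      (∀ u, up2 u → a u ≠ b u ∧ (¬ up1 (m1 u) → a u ≠ g1 u ∧ b u ≠ g1 u) ∧
        (up1 (m1 u) → b u = c (m1 u)) ∧ (¬ up1 (m2 u) → b u ≠ g2 u) ∧
        (up1 (m2 u) → b u ≠ c (m2 u))) := by
  classical
  obtain ⟨third, ht⟩ : ∃ third : Fin 3 → Fin 3 → Fin 3, ∀ y z, third y z ≠ y ∧ third y z ≠ z :=
    ⟨fun y z => (exists_third y z).choose, fun y z => (exists_third y z).choose_spec⟩
  let E : (V → Fin 3) → V → Fin 3 := fun c u => if up1 (m2 u) then c (m2 u) else g2 u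
  let F1 : (V → Fin 3) → V → Fin 3 := fun c v => if up1 v ∧ up1 (m1 v) then c (m1 v) else g1 v
  let F2 : (V → Fin 3) → V → Fin 3 := fun c v =>
    if h : ∃ u, up2 u ∧ m1 u = v ∧ up1 v then E c h.choose else 0
  have hF1 : ∀ c c' : V → Fin 3, ∀ v, (∀ w, p v < p w → c w = c' w) → F1 c v = F1 c' v := by
    intro c c' v h
    by_cases hv : up1 v ∧ up1 (m1 v)
    · change (if up1 v ∧ up1 (m1 v) then c (m1 v) else g1 v) =
        (if up1 v ∧ up1 (m1 v) then c' (m1 v) else g1 v)
      rw [if_pos hv, if_pos hv]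
      exact h _ (h1 v hv.1)
    · change (if up1 v ∧ up1 (m1 v) then c (m1 v) else g1 v) =
        (if up1 v ∧ up1 (m1 v) then c' (m1 v) else g1 v)
      rw [if_neg hv, if_neg hv]
  have hF2 : ∀ c c' : V → Fin 3, ∀ v, (∀ w, p v < p w → c w = c' w) → F2 c v = F2 c' v := by
    intro c c' v h
    by_cases hv : ∃ u, up2 u ∧ m1 u = v ∧ up1 v
    · change (if h : ∃ u, up2 u ∧ m1 u = v ∧ up1 v then E c h.choose else 0) =
        (if h : ∃ u, up2 u ∧ m1 u = v ∧ up1 v then E c' h.choose else 0)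
      rw [dif_pos hv, dif_pos hv]
      obtain ⟨k1, k2, -⟩ := hv.choose_spec
      change (if up1 (m2 hv.choose) then c (m2 hv.choose) else g2 hv.choose) =
        (if up1 (m2 hv.choose) then c' (m2 hv.choose) else g2 hv.choose)
      by_cases h3 : up1 (m2 hv.choose)
      · rw [if_pos h3, if_pos h3]
        refine h _ ?_
        have := (h2 _ k1).2
        rw [k2] at this
        exact this
      · rw [if_neg h3, if_neg h3]
    · change (if h : ∃ u, up2 u ∧ m1 u = v ∧ up1 v then E c h.choose else 0) =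
        (if h : ∃ u, up2 u ∧ m1 u = v ∧ up1 v then E c' h.choose else 0)
      rw [dif_neg hv, dif_neg hv]
  obtain ⟨c, hc⟩ := greedy_fix p (fun c v => third (F1 c v) (F2 c v)) (by
    intro c c' v h
    rw [hF1 c c' v h, hF2 c c' v h])
  have hc1 : ∀ v, c v ≠ F1 c v := fun v h => (ht (F1 c v) (F2 c v)).1 ((hc v).symm.trans h)
  have hc2 : ∀ v, c v ≠ F2 c v := fun v h => (ht (F1 c v) (F2 c v)).2 ((hc v).symm.trans h)
  obtain ⟨b, hb⟩ : ∃ b : V → Fin 3, ∀ u, b u = if up1 (m1 u) then c (m1 u) else third (g1 u) (E c u) :=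
    ⟨_, fun _ => rfl⟩
  obtain ⟨a, ha⟩ : ∃ a : V → Fin 3, ∀ u, a u = third (b u) (g1 u) := ⟨_, fun _ => rfl⟩
  refine ⟨c, a, b, ?_, ?_⟩
  · intro v hv
    constructor
    · intro h
      have := hc1 v
      change c v ≠ (if up1 v ∧ up1 (m1 v) then c (m1 v) else g1 v) at this
      rwa [if_neg (fun h' => h h'.2)] at this
    · intro h
      have := hc1 v
      change c v ≠ (if up1 v ∧ up1 (m1 v) then c (m1 v) else g1 v) at this
      rwa [if_pos ⟨hv, h⟩] at this
  · intro u hu2
    have hbE : b u ≠ E c u := by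
      rw [hb]
      by_cases h : up1 (m1 u)
      · rw [if_pos h]
        have hex : ∃ u', up2 u' ∧ m1 u' = m1 u ∧ up1 (m1 u) := ⟨u, hu2, rfl, h⟩
        have := hc2 (m1 u)
        change c (m1 u) ≠ (if h : ∃ u', up2 u' ∧ m1 u' = m1 u ∧ up1 (m1 u) then E c h.choose else 0)
          at this
        rw [dif_pos hex] at this
        obtain ⟨k1, k2, -⟩ := hex.choose_spec
        have he : u = hex.choose := hu u hex.choose hu2 k1 k2.symm h
        rw [← he] at this
        exact this
      · rw [if_neg h]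
        exact (ht _ _).2
    refine ⟨?_, ?_, ?_, ?_, ?_⟩
    · rw [ha]
      exact (ht _ _).1
    · intro h
      constructor
      · rw [ha]
        exact (ht _ _).2
      · rw [hb, if_neg h]
        exact (ht _ _).1
    · intro h
      rw [hb, if_pos h]
    · intro h
      have h3 : E c u = g2 u := if_neg h
      rw [← h3]
      exact hbE
    · intro h
      have h3 : E c u = c (m2 u) := if_pos h
      rw [← h3]
      exact hbE

end Pool.Agent.Z6
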